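import Mathlib
import Pool.Agent.Lib_helper9.LG.Stmts
import Pool.Agent.Lib_helper9.LG.Avg

set_option autoImplicit false
set_option linter.unusedSectionVars false
set_option linter.unusedSimpArgs false

/-!
The engine for general families of sites: every site has a residue class modulo every prime of the
window, different sites have different classes.
-/

namespace Pool.Agent.DLG

open Finset Filter Pool.Agent.Lib_helper9.LG

noncomputable section

/-- The local function of the residue `r` modulo `l`. -/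
def xr (r l c : ℕ) : ℝ := if c ≡ r [MOD l] then -1 else 1 / ((l : ℝ) - 1)

lemma mem_PL {m : ℕ} {X : ℝ} {l : ℕ} (h : l ∈ PL m X) :
    l.Prime ∧ (Real.log X) ^ 4 < (l : ℝ) ∧ ¬ l ∣ m := by
  unfold PL at h
  rw [mem_filter] at h
  exact h.2

lemma xr_periodic (r l c : ℕ) : xr r l (c + l) = xr r l c := by
  unfold xr
  have h : (c + l ≡ r [MOD l]) ↔ (c ≡ r [MOD l]) := by
    unfold Nat.ModEq
    rw [Nat.add_mod_right]
  simp only [h]

lemma abs_xr_le (r l c : ℕ) (hl : l.Prime) : |xr r l c| ≤ 1 := by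
  unfold xr
  have h2 : (2 : ℝ) ≤ l := by exact_mod_cast hl.two_le
  split_ifs
  · simp
  · rw [abs_of_nonneg (by apply div_nonneg <;> linarith)]
    rw [div_le_one (by linarith)]
    linarith

lemma sumG {l : ℕ} (hl : 0 < l) (r : ℕ) :
    ∑ y ∈ range l, (if y ≡ r [MOD l] then (1 : ℝ) else 0) = 1 := by
  rw [Finset.sum_eq_single (r % l)]
  · rw [if_pos (Nat.mod_modEq r l)]
  · intro y hy hne
    rw [if_neg]
    intro h
    apply hne
    have h1 := Nat.mod_eq_of_lt (Finset.mem_range.1 hy)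
    rw [← h1]
    exact h
  · intro h
    exact absurd (Finset.mem_range.2 (Nat.mod_lt _ hl)) h

lemma sumG_ne {l r s : ℕ} (hrs : ¬ r ≡ s [MOD l]) :
    ∑ y ∈ range l, (if y ≡ r [MOD l] then (1 : ℝ) else 0) *
      (if y ≡ s [MOD l] then (1 : ℝ) else 0) = 0 := by
  apply Finset.sum_eq_zero
  intro y _
  by_cases h1 : y ≡ r [MOD l]
  · by_cases h2 : y ≡ s [MOD l]
    · exact absurd (h1.symm.trans h2) hrs
    · rw [if_neg h2, mul_zero]
  · rw [if_neg h1, zero_mul]

lemma xr_eq {r l c : ℕ} (hl : (1 : ℝ) < l) :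
    xr r l c = 1 / ((l : ℝ) - 1) -
      (l : ℝ) / ((l : ℝ) - 1) * (if c ≡ r [MOD l] then (1 : ℝ) else 0) := by
  have h : (l : ℝ) - 1 ≠ 0 := by linarith
  unfold xr
  split_ifs
  · field_simp
    ring
  · ring

lemma meanG {l r : ℕ} (hl : 0 < l) (hl1 : (1 : ℝ) < l) :
    ∑ y ∈ range l, xr r l y = 0 := by
  have h : (l : ℝ) - 1 ≠ 0 := by linarith
  rw [Finset.sum_congr rfl fun y _ => xr_eq (r := r) (c := y) hl1,
    Finset.sum_sub_distrib, ← Finset.mul_sum, sumG hl, Finset.sum_const, Finset.card_range,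
    nsmul_eq_mul]
  field_simp
  ring

lemma covG {l r s : ℕ} (hl : 0 < l) (hl1 : (1 : ℝ) < l) {δ : ℝ}
    (hδ : ∑ y ∈ range l, (if y ≡ r [MOD l] then (1 : ℝ) else 0) *
      (if y ≡ s [MOD l] then (1 : ℝ) else 0) = δ) :
    ∑ y ∈ range l, xr r l y * xr s l y =
      (l : ℝ) / ((l : ℝ) - 1) ^ 2 * (l * δ - 1) := by
  have h : (l : ℝ) - 1 ≠ 0 := by linarith
  have h1 : ∀ y ∈ range l, xr r l y * xr s l y =
      1 / ((l : ℝ) - 1) ^ 2 -
      (l : ℝ) / ((l : ℝ) - 1) ^ 2 * (if y ≡ r [MOD l] then (1 : ℝ) else 0) -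
      (l : ℝ) / ((l : ℝ) - 1) ^ 2 * (if y ≡ s [MOD l] then (1 : ℝ) else 0) +
      (l : ℝ) ^ 2 / ((l : ℝ) - 1) ^ 2 * ((if y ≡ r [MOD l] then (1 : ℝ) else 0) *
        (if y ≡ s [MOD l] then (1 : ℝ) else 0)) := by
    intro y _
    rw [xr_eq hl1, xr_eq hl1]
    field_simp
    ring
  rw [Finset.sum_congr rfl h1, Finset.sum_add_distrib, Finset.sum_sub_distrib,
    Finset.sum_sub_distrib, ← Finset.mul_sum, ← Finset.mul_sum, ← Finset.mul_sum,
    sumG hl, sumG hl, hδ, Finset.sum_const, Finset.card_range, nsmul_eq_mul]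
  field_simp
  ring

theorem locG (l : ℕ) (κ : Type) [DecidableEq κ] (r : κ → ℕ) (β β' : Option κ) (hl : l.Prime)
    (hr : ∀ k j, k ≠ j → ¬ r k ≡ r j [MOD l]) :
    (∑ y ∈ range l, (β.elim 1 (fun k => xr (r k) l y)) * (β'.elim 1 (fun k => xr (r k) l y))) / l =
      gl ((l : ℝ) - 1) β β' := by
  have hl0 : 0 < l := hl.pos
  have hl1 : (1 : ℝ) < l := by exact_mod_cast hl.one_lt
  have hl2 : (l : ℝ) ≠ 0 := by linarith
  have h : (l : ℝ) - 1 ≠ 0 := by linarith
  cases β with
  | none =>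
    cases β' with
    | none =>
      simp only [Option.elim, gl, mul_one, Finset.sum_const, Finset.card_range, nsmul_eq_mul]
      exact div_self hl2
    | some k =>
      simp only [Option.elim, gl, one_mul]
      rw [meanG hl0 hl1, zero_div]
  | some k =>
    cases β' with
    | none =>
      simp only [Option.elim, gl, mul_one]
      rw [meanG hl0 hl1, zero_div]
    | some j =>
      simp only [Option.elim, gl]
      by_cases hkj : k = j
      · subst hkj
        rw [if_pos rfl]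
        have h1 : ∑ y ∈ range l, (if y ≡ r k [MOD l] then (1 : ℝ) else 0) *
            (if y ≡ r k [MOD l] then (1 : ℝ) else 0) = 1 := by
          refine Eq.trans ?_ (sumG hl0 (r k))
          apply Finset.sum_congr rfl
          intro y _
          split_ifs <;> simp
        rw [covG hl0 hl1 h1]
        field_simp
      · rw [if_neg hkj]
        rw [covG hl0 hl1 (sumG_ne (hr k j hkj))]
        field_simp
        ring

/-- Both factors of a configuration pair at one prime. -/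
def pairF {κ : Type} (m : ℕ) (X : ℝ) (r : κ → ℕ → ℕ) (α β : {l // l ∈ PL m X} → Option κ)
    (l c : ℕ) : ℝ :=
  if h : l ∈ PL m X then
    ((α ⟨l, h⟩).elim 1 (fun k => xr (r k l) l c)) * ((β ⟨l, h⟩).elim 1 (fun k => xr (r k l) l c))
  else 1

lemma pairF_coe {κ : Type} (m : ℕ) (X : ℝ) (r : κ → ℕ → ℕ) (α β : {l // l ∈ PL m X} → Option κ)
    (i : {l // l ∈ PL m X}) (c : ℕ) : pairF m X r α β i c =
      ((α i).elim 1 (fun k => xr (r k i) i c)) * ((β i).elim 1 (fun k => xr (r k i) i c)) := by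
  unfold pairF
  rw [dif_pos i.2]

theorem herrG (m W b N : ℕ) (X : ℝ) (κ : Type) [Fintype κ] [DecidableEq κ] (r : κ → ℕ → ℕ)
    (hr : ∀ l ∈ PL m X, ∀ k j, k ≠ j → ¬ r k l ≡ r j l [MOD l])
    (α β : {l // l ∈ PL m X} → Option κ) (hm : 1 ≤ m) (hW : 1 ≤ W) (hN : 1 ≤ N)
    (hWm : W.Coprime m) (hWp : ∀ p : ℕ, p.Prime → p ∣ W → (p : ℝ) ≤ (Real.log X) ^ 4) :
  |(∑ ω ∈ (range N).filter (fun x => (b + W * x).Coprime m),
      vl (fun (i : {l // l ∈ PL m X}) (k : κ) (x : ℕ) => xr (r k i) i (b + W * x)) α ω *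
      vl (fun (i : {l // l ∈ PL m X}) (k : κ) (x : ℕ) => xr (r k i) i (b + W * x)) β ω) /
      ((N : ℝ) * ((m.totient : ℝ) / m)) -
    gram (fun i : {l // l ∈ PL m X} => ((i : ℕ) : ℝ) - 1) α β| ≤
    (2 ^ m.primeFactors.card / ((N : ℝ) * ((m.totient : ℝ) / m))) *
      (Real.exp (sz (fun i : {l // l ∈ PL m X} => Real.log ((i : ℕ) : ℝ)) (spp α)) *
       Real.exp (sz (fun i : {l // l ∈ PL m X} => Real.log ((i : ℕ) : ℝ)) (spp β))) := by
  have h1 : StmtAVG := avg
  classical
  set D : Finset {l // l ∈ PL m X} := spp α ∪ spp β with hD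
  set P : Finset ℕ := D.map (Function.Embedding.subtype _) with hP
  have hPmem : ∀ l ∈ P, l ∈ PL m X := by
    intro l hl
    rw [hP, Finset.mem_map] at hl
    obtain ⟨i, _, rfl⟩ := hl
    exact i.2
  have hM : (0 : ℝ) < (N : ℝ) * ((m.totient : ℝ) / m) := by
    have h3 : 0 < m.totient := Nat.totient_pos.2 (by omega)
    have h4 : (0 : ℝ) < m.totient := by exact_mod_cast h3
    have h5 : (0 : ℝ) < m := by exact_mod_cast (by omega : 0 < m)
    have h6 : (0 : ℝ) < N := by exact_mod_cast (by omega : 0 < N)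
    positivity
  have hprodP : ∀ f : ℕ → ℝ, ∏ l ∈ P, f l = ∏ i ∈ D, f i := by
    intro f
    rw [hP, Finset.prod_map]
    rfl
  have hnone : ∀ i : {l // l ∈ PL m X}, i ∉ D → α i = none ∧ β i = none := by
    intro i hi
    rw [hD, mem_union, not_or, mem_spp, mem_spp, not_not, not_not] at hi
    exact hi
  have key := h1 m W b N P (pairF m X r α β) hm hW hWm
    (by
      intro l hl
      obtain ⟨h3, h4, h5⟩ := mem_PL (hPmem l hl)
      refine ⟨h3, h5, fun h6 => ?_⟩
      exact absurd (hWp l h3 h6) (not_le.2 h4))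
    (by
      intro l hl c
      unfold pairF
      rw [dif_pos (hPmem l hl), dif_pos (hPmem l hl)]
      simp only [xr_periodic])
    (by
      intro l hl c
      unfold pairF
      rw [dif_pos (hPmem l hl), abs_mul]
      have hlp := (mem_PL (hPmem l hl)).1
      have h3 : ∀ γ : Option κ, |γ.elim 1 (fun k => xr (r k l) l c)| ≤ 1 := by
        intro γ
        cases γ with
        | none => simp
        | some k => exact abs_xr_le (r k l) l c hlp
      exact mul_le_one₀ (h3 _) (abs_nonneg _) (h3 _))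
  -- the product over the primes of `P`
  have hval : ∀ x : ℕ, ∏ l ∈ P, pairF m X r α β l (b + W * x) =
      vl (fun (i : {l // l ∈ PL m X}) (k : κ) (x : ℕ) => xr (r k i) i (b + W * x)) α x *
      vl (fun (i : {l // l ∈ PL m X}) (k : κ) (x : ℕ) => xr (r k i) i (b + W * x)) β x := by
    intro x
    rw [hprodP, vl, vl, ← Finset.prod_mul_distrib]
    rw [← Finset.prod_subset (subset_univ D)]
    · apply Finset.prod_congr rfl
      intro i _
      rw [pairF_coe]
    · intro i _ hi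
      obtain ⟨h3, h4⟩ := hnone i hi
      rw [h3, h4]
      simp
  have hmean : ∏ l ∈ P, ((∑ y ∈ range l, pairF m X r α β l y) / l) =
      gram (fun i : {l // l ∈ PL m X} => ((i : ℕ) : ℝ) - 1) α β := by
    rw [hprodP, gram]
    rw [← Finset.prod_subset (subset_univ D)]
    · apply Finset.prod_congr rfl
      intro i _
      obtain ⟨h3, h4, h5⟩ := mem_PL i.2
      rw [← locG i κ (fun k => r k i) (α i) (β i) h3 (hr i i.2)]
      congr 1
      apply Finset.sum_congr rfl
      intro y _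
      rw [pairF_coe]
    · intro i _ hi
      obtain ⟨h3, h4⟩ := hnone i hi
      rw [h3, h4]
      rfl
  have hexp : ∀ T : Finset {l // l ∈ PL m X},
      Real.exp (sz (fun i : {l // l ∈ PL m X} => Real.log ((i : ℕ) : ℝ)) T) =
        ∏ i ∈ T, ((i : ℕ) : ℝ) := by
    intro T
    rw [sz, Real.exp_sum]
    apply Finset.prod_congr rfl
    intro i _
    have := (mem_PL i.2).1.pos
    rw [Real.exp_log (by exact_mod_cast this)]
  have hone : ∀ i : {l // l ∈ PL m X}, (1 : ℝ) ≤ ((i : ℕ) : ℝ) := by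
    intro i
    exact_mod_cast (mem_PL i.2).1.one_le
  have hDle : ∏ l ∈ P, (l : ℝ) ≤ (∏ i ∈ spp α, ((i : ℕ) : ℝ)) * ∏ i ∈ spp β, ((i : ℕ) : ℝ) := by
    rw [hprodP (fun l => (l : ℝ)), hD,
      ← Finset.prod_union_inter (s₁ := spp α) (s₂ := spp β) (f := fun i => ((i : ℕ) : ℝ))]
    have h3 : (1 : ℝ) ≤ ∏ i ∈ spp α ∩ spp β, ((i : ℕ) : ℝ) :=
      Finset.one_le_prod fun i _ => hone i
    have h4 : (0 : ℝ) ≤ ∏ i ∈ spp α ∪ spp β, ((i : ℕ) : ℝ) :=
      Finset.prod_nonneg fun i _ => (zero_le_one.trans (hone i))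
    nlinarith
  rw [hmean, Finset.sum_congr rfl fun x _ => hval x] at key
  rw [hexp, hexp]
  set Sg := ∑ ω ∈ (range N).filter (fun x => (b + W * x).Coprime m),
      vl (fun (i : {l // l ∈ PL m X}) (k : κ) (x : ℕ) => xr (r k i) i (b + W * x)) α ω *
      vl (fun (i : {l // l ∈ PL m X}) (k : κ) (x : ℕ) => xr (r k i) i (b + W * x)) β ω
    with hSg
  set M := (N : ℝ) * ((m.totient : ℝ) / m) with hMdef
  set G := gram (fun i : {l // l ∈ PL m X} => ((i : ℕ) : ℝ) - 1) α β with hG
  have h7 : Sg / M - G = (Sg - M * G) / M := by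
    field_simp
  rw [h7, abs_div, abs_of_pos hM, div_mul_eq_mul_div]
  apply div_le_div_of_nonneg_right _ hM.le
  refine key.trans ?_
  exact mul_le_mul_of_nonneg_left hDle (by positivity)

end

end Pool.Agent.DLG
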