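import Mathlib
import Pool.Agent.DLG.Herr
import Pool.Agent.Lib_helper9.LG.Om
import Pool.Agent.Lib_helper9.LG.SigmaH2

set_option autoImplicit false
set_option linter.unusedSectionVars false
set_option linter.unusedSimpArgs false

/-!
The engine for general families of sites: every site has a residue class modulo every prime of the
window, different sites have different classes.
-/

namespace Pool.Agent.DLG

open Finset Filter Pool.Agent.Lib_helper9.LG

noncomputable section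

/-- The general engine: any family of at most `c₁ log X` sites (given by their residues modulo the
primes of the window, different for different sites) is hit by primes of the window at some
`b + W x` with `W x ≤ X`, coprime to `m`. -/
def StmtG : Prop := ∃ c₁ : ℝ, 0 < c₁ ∧ ∀ A : ℕ, ∃ X₀ : ℝ, ∀ X : ℝ, X₀ ≤ X → ∀ m W b : ℕ, 1 ≤ m →
  (m : ℝ) ≤ X ^ A → 1 ≤ W → (W : ℝ) ^ 8 ≤ X → W.Coprime m →
  (∀ p : ℕ, p.Prime → p ∣ W → (p : ℝ) ≤ (Real.log X) ^ 4) →
  ∀ (κ : Type) [Fintype κ] [DecidableEq κ] (r : κ → ℕ → ℕ),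
  (∀ l ∈ PL m X, ∀ k j, k ≠ j → ¬ r k l ≡ r j l [MOD l]) →
  (Fintype.card κ : ℝ) ≤ c₁ * Real.log X →
  ∃ x : ℕ, ((W * x : ℕ) : ℝ) ≤ X ∧ (b + W * x).Coprime m ∧ ∀ k, ∃ l ∈ PL m X,
    (b + W * x) ≡ r k l [MOD l]

lemma two_pow_totient (m : ℕ) (hm : 1 ≤ m) :
    1 / (2 : ℝ) ^ m.primeFactors.card ≤ (m.totient : ℝ) / m := by
  have h1 : (m.totient : ℝ) = m * ∏ p ∈ m.primeFactors, (1 - ((p : ℝ))⁻¹) := by
    have h := congrArg (fun q : ℚ => (q : ℝ)) (Nat.totient_eq_mul_prod_factors m)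
    push_cast at h
    exact h
  have hm0 : (0 : ℝ) < m := by exact_mod_cast hm
  rw [h1, mul_div_cancel_left₀ _ hm0.ne', one_div, ← inv_pow, ← Finset.prod_const]
  apply Finset.prod_le_prod
  · intro p _
    norm_num
  · intro p hp
    have h2 : (2 : ℝ) ≤ p := by exact_mod_cast (Nat.prime_of_mem_primeFactors hp).two_le
    have h3 : (p : ℝ)⁻¹ ≤ 2⁻¹ := by
      apply inv_anti₀ (by norm_num) h2
    have h4 : (2 : ℝ)⁻¹ = 1 - 2⁻¹ := by norm_num
    rw [h4]
    linarith

lemma mem_PLe {m : ℕ} {X : ℝ} {l : ℕ} (h : l ∈ PL m X) :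
    l.Prime ∧ (Real.log X) ^ 4 < (l : ℝ) ∧ ¬ l ∣ m ∧
      (l : ℝ) ≤ Real.exp (Real.sqrt (Real.log X)) := by
  rw [PL, mem_filter, mem_Icc] at h
  refine ⟨h.2.1, h.2.2.1, h.2.2.2, ?_⟩
  exact (Nat.le_floor_iff (Real.exp_nonneg _)).1 h.1.2

/-- Facts for large `L`. -/
lemma large (s : ℝ) : ∀ᶠ L : ℝ in atTop, 16 ≤ L ∧ 1 / s ≤ 4 * Real.log L ∧
    1 ≤ 4 * Real.log L ∧ L * Real.exp (1 - Real.sqrt L / 80) ≤ 1 / 16 ∧
    18 * (L + 1) * Real.exp (-(5 / 8 * L)) ≤ 1 / 4 := by
  have h1 : ∀ᶠ L : ℝ in atTop, 1 / s ≤ 4 * Real.log L :=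
    (Real.tendsto_log_atTop.const_mul_atTop (by norm_num : (0 : ℝ) < 4)).eventually_ge_atTop _
  have h2 : ∀ᶠ L : ℝ in atTop, 1 ≤ 4 * Real.log L :=
    (Real.tendsto_log_atTop.const_mul_atTop (by norm_num : (0 : ℝ) < 4)).eventually_ge_atTop _
  have h3 : ∀ᶠ u : ℝ in atTop, u ^ 2 * Real.exp (1 - u / 80) ≤ 1 / 16 := by
    have h := (isLittleO_pow_exp_pos_mul_atTop 2 (show (0 : ℝ) < 1 / 80 by norm_num)).bound
      (show (0 : ℝ) < 1 / 16 * Real.exp (-1) by positivity)
    filter_upwards [h, eventually_ge_atTop 0] with u hu hu0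
    rw [Real.norm_of_nonneg (by positivity), Real.norm_of_nonneg (Real.exp_pos _).le] at hu
    have h4 : Real.exp (1 - u / 80) = Real.exp 1 * Real.exp (-(1 / 80 * u)) := by
      rw [← Real.exp_add]
      congr 1
      ring
    have h5 : Real.exp (-1) * Real.exp (1 / 80 * u) * (Real.exp 1 * Real.exp (-(1 / 80 * u))) = 1 := by
      rw [← Real.exp_add, ← Real.exp_add, ← Real.exp_add]
      rw [show -1 + 1 / 80 * u + (1 + -(1 / 80 * u)) = 0 by ring, Real.exp_zero]
    calc u ^ 2 * Real.exp (1 - u / 80) ≤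
          (1 / 16 * Real.exp (-1) * Real.exp (1 / 80 * u)) * Real.exp (1 - u / 80) := by
          gcongr
      _ = 1 / 16 * (Real.exp (-1) * Real.exp (1 / 80 * u) *
            (Real.exp 1 * Real.exp (-(1 / 80 * u)))) := by
          rw [h4]
          ring
      _ = 1 / 16 := by rw [h5, mul_one]
  have h4 : ∀ᶠ L : ℝ in atTop, (Real.sqrt L) ^ 2 * Real.exp (1 - Real.sqrt L / 80) ≤ 1 / 16 :=
    Real.tendsto_sqrt_atTop.eventually h3
  have h5 : ∀ᶠ L : ℝ in atTop, L ^ 2 ≤ Real.exp (5 / 8 * L) := by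
    have h := (isLittleO_pow_exp_pos_mul_atTop 2 (show (0 : ℝ) < 5 / 8 by norm_num)).bound
      (show (0 : ℝ) < 1 by norm_num)
    filter_upwards [h, eventually_ge_atTop 0] with u hu hu0
    rw [Real.norm_of_nonneg (by positivity), Real.norm_of_nonneg (Real.exp_pos _).le] at hu
    linarith
  filter_upwards [h1, h2, h4, h5, eventually_ge_atTop 200] with L g1 g2 g4 g5 g6
  refine ⟨by linarith, g1, g2, ?_, ?_⟩
  · rwa [Real.sq_sqrt (by linarith)] at g4
  · have h6 : 72 * (L + 1) ≤ Real.exp (5 / 8 * L) := by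
      calc 72 * (L + 1) ≤ 200 * L := by linarith
        _ ≤ L * L := by gcongr
        _ = L ^ 2 := by ring
        _ ≤ _ := g5
    rw [Real.exp_neg, ← div_eq_mul_inv, div_le_iff₀ (Real.exp_pos _)]
    linarith

/-- **The engine**, for any family of sites with different residues at the primes of the window. -/
theorem engG (hS : StmtSIGMA) (hO : StmtOM) : StmtG := by
  obtain ⟨s, hs, hS⟩ := hS
  refine ⟨min 1 (s / 160), by positivity, fun A => ?_⟩
  obtain ⟨X₁, hX₁⟩ := hS A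
  obtain ⟨X₂, hX₂⟩ := hO A
  have hlog := Real.tendsto_log_atTop.eventually (large s)
  obtain ⟨X₃, hX₃⟩ := eventually_atTop.1 hlog
  refine ⟨max (max X₁ X₂) (max X₃ 1), fun X hX m W b hm hmX hW hWX hWm hWp κ _ _ r hr hSc => ?_⟩
  have hXX₁ : X₁ ≤ X := ((le_max_left _ _).trans (le_max_left _ _)).trans hX
  have hXX₂ : X₂ ≤ X := ((le_max_right _ _).trans (le_max_left _ _)).trans hX
  have hXX₃ : X₃ ≤ X := ((le_max_left _ _).trans (le_max_right _ _)).trans hX
  have hX1 : 1 ≤ X := ((le_max_right _ _).trans (le_max_right _ _)).trans hX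
  obtain ⟨e1, e2, e3, e4, e5⟩ := hX₃ X hXX₃
  have hσ := hX₁ X hXX₁ m hm hmX
  have hω := hX₂ X hXX₂ m hm hmX
  set L := Real.log X with hL
  have hX0 : 0 < X := by linarith
  have hexpL : Real.exp L = X := Real.exp_log hX0
  obtain ⟨lam, hlam⟩ : ∃ lam : {l // l ∈ PL m X} → ℝ,
      lam = fun i : {l // l ∈ PL m X} => Real.log ((i : ℕ) : ℝ) :=
    ⟨_, rfl⟩
  obtain ⟨q, hq⟩ : ∃ q : {l // l ∈ PL m X} → ℝ,
      q = fun i : {l // l ∈ PL m X} => ((i : ℕ) : ℝ) - 1 := ⟨_, rfl⟩
  rw [← hlam, ← hq] at hσ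
  obtain ⟨K, hK⟩ : ∃ K : ℝ, K = (Fintype.card κ : ℝ) := ⟨_, rfl⟩
  have hK0 : 0 ≤ K := by
    rw [hK]
    exact Nat.cast_nonneg _
  have hK1 : K ≤ L := by
    rw [hK]
    refine hSc.trans ?_
    calc min 1 (s / 160) * L ≤ 1 * L := by gcongr; exact min_le_left _ _
      _ = L := one_mul L
  have hK2 : K ≤ s / 160 * L := by
    rw [hK]
    refine hSc.trans ?_
    have := min_le_right 1 (s / 160)
    gcongr
  have hLp : 0 < L := by linarith
  have hL4 : L ^ 4 = L * L ^ 3 := by ring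
  have hL3 : (16 : ℝ) ^ 3 ≤ L ^ 3 := by gcongr
  have hL4' : (16 : ℝ) ^ 4 ≤ L ^ 4 := by gcongr
  have hlb : ∀ i : {l // l ∈ PL m X}, L ^ 4 < ((i : ℕ) : ℝ) := fun i => (mem_PLe i.2).2.1
  have hlam1 : ∀ i, 4 * Real.log L ≤ lam i := by
    intro i
    have h1 := Real.log_le_log (by positivity) (hlb i).le
    rw [Real.log_pow] at h1
    rw [hlam]
    exact_mod_cast h1
  have hlam0 : ∀ i, 0 < lam i := fun i => by
    have := hlam1 i
    linarith
  have hqb : ∀ i, L ^ 4 / 2 ≤ q i := by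
    intro i
    have := hlb i
    rw [hq]
    dsimp only
    linarith
  have hq0 : ∀ i, 0 < q i := fun i => by
    have := hqb i
    linarith
  obtain ⟨σ, hσdef⟩ : ∃ σ : ℝ, σ = ∑ T : Finset {l // l ∈ PL m X}, s0 lam q (Real.sqrt L) T :=
    ⟨_, rfl⟩
  rw [← hσdef] at hσ
  have hσ0 : 0 < σ := lt_of_lt_of_le hs hσ
  have ha : 0 ≤ 1 / σ := by positivity
  have ha1 : 1 / σ ≤ 1 / s := one_div_le_one_div_of_le hs hσ
  have hal : ∀ i, 1 / σ ≤ lam i := fun i => (ha1.trans e2).trans (hlam1 i)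
  have hsqrt : 0 < Real.sqrt L := Real.sqrt_pos.2 (by linarith)
  have hsqrt2 : Real.sqrt L * Real.sqrt L = L := Real.mul_self_sqrt (by linarith)
  -- number of primes in a configuration
  have hcard : ∀ T : Finset {l // l ∈ PL m X}, sz lam T ≤ L / 40 → (T.card : ℝ) ≤ L := by
    intro T hT
    have h1 : (T.card : ℝ) * 1 ≤ sz lam T := by
      rw [sz, ← nsmul_eq_mul, ← Finset.sum_const]
      apply Finset.sum_le_sum
      intro i _
      linarith [hlam1 i]
    linarith
  have hsum1 : ∀ T : Finset {l // l ∈ PL m X}, ∀ c : ℝ, 0 ≤ c → sz lam T ≤ L / 40 →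
      ∑ i ∈ T, c / q i ≤ 2 * c / L ^ 3 := by
    intro T c hc hT
    calc ∑ i ∈ T, c / q i ≤ ∑ i ∈ T, c / (L ^ 4 / 2) := by
          apply Finset.sum_le_sum
          intro i _
          exact div_le_div_of_nonneg_left hc (by positivity) (hqb i)
      _ = T.card * (c / (L ^ 4 / 2)) := by rw [Finset.sum_const, nsmul_eq_mul]
      _ ≤ L * (c / (L ^ 4 / 2)) := by
          have := hcard T hT
          gcongr
      _ = _ := by
          field_simp
  -- the range
  obtain ⟨N, hN⟩ : ∃ N : ℕ, N = ⌊X / W⌋₊ := ⟨_, rfl⟩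
  have hW0 : (0 : ℝ) < W := by exact_mod_cast hW
  have hWexp : (W : ℝ) ≤ Real.exp (L / 8) := by
    have h1 : (W : ℝ) ^ 8 ≤ (Real.exp (L / 8)) ^ 8 := by
      rw [← Real.exp_nat_mul]
      refine hWX.trans (le_of_eq ?_)
      rw [← hexpL]
      congr 1
      push_cast
      ring
    exact le_of_pow_le_pow_left₀ (by norm_num) (Real.exp_nonneg _) h1
  have hWX1 : 2 * (W : ℝ) ≤ X := by
    have h1 : (2 : ℝ) ≤ Real.exp (7 / 8 * L) := by
      have := Real.add_one_le_exp (7 / 8 * L)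
      linarith
    calc 2 * (W : ℝ) ≤ Real.exp (7 / 8 * L) * Real.exp (L / 8) := by gcongr
      _ = X := by
          rw [← Real.exp_add, ← hexpL]
          congr 1
          ring
  have hN1 : X / (2 * W) ≤ N := by
    have h1 : X / W < N + 1 := by
      rw [hN]
      exact Nat.lt_floor_add_one _
    have h2 : 1 ≤ X / (2 * W) := by
      rw [le_div_iff₀ (by positivity)]
      linarith
    have h3 : X / W = X / (2 * W) + X / (2 * W) := by
      field_simp
      ring
    linarith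
  have hN0 : 1 ≤ N := by
    rw [hN, Nat.le_floor_iff (by positivity)]
    rw [le_div_iff₀ hW0]
    push_cast
    linarith
  have hN0r : (0 : ℝ) < N := by exact_mod_cast hN0
  have hm0 : (0 : ℝ) < m := by exact_mod_cast hm
  have htot : (0 : ℝ) < m.totient := by
    exact_mod_cast Nat.totient_pos.2 hm
  have hM : 0 < (N : ℝ) * ((m.totient : ℝ) / m) := by positivity
  have hη : 2 ^ m.primeFactors.card / ((N : ℝ) * ((m.totient : ℝ) / m)) ≤
      2 * Real.exp (-(31 / 40 * L)) := by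
    have h1 := two_pow_totient m hm
    have h2 : (4 : ℝ) ^ m.primeFactors.card ≤ Real.exp (L / 10) := by
      refine hω.trans (le_of_eq ?_)
      rw [← hexpL, ← Real.exp_mul]
      congr 1
      ring
    rw [div_le_iff₀ hM]
    have h3 : Real.exp (7 / 8 * L) / 2 ≤ N := by
      refine le_trans ?_ hN1
      rw [div_le_div_iff₀ (by norm_num) (by positivity)]
      calc Real.exp (7 / 8 * L) * (2 * W) ≤ Real.exp (7 / 8 * L) * (2 * Real.exp (L / 8)) := by
            gcongr
        _ = (Real.exp (7 / 8 * L) * Real.exp (L / 8)) * 2 := by ring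
        _ = X * 2 := by
            rw [← Real.exp_add, ← hexpL]
            congr 2
            ring
    have h4 : (2 : ℝ) ^ m.primeFactors.card * 2 ^ m.primeFactors.card ≤ Real.exp (L / 10) := by
      rw [← mul_pow]
      norm_num
      exact h2
    have h5 : (0 : ℝ) < 2 ^ m.primeFactors.card := by positivity
    calc (2 : ℝ) ^ m.primeFactors.card =
          (2 ^ m.primeFactors.card * 2 ^ m.primeFactors.card) * (1 / 2 ^ m.primeFactors.card) := by
          field_simp
      _ ≤ Real.exp (L / 10) * ((m.totient : ℝ) / m) := by gcongr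
      _ = 2 * Real.exp (-(31 / 40 * L)) * (Real.exp (7 / 8 * L) / 2 * ((m.totient : ℝ) / m)) := by
          have h6 : Real.exp (L / 10) = Real.exp (-(31 / 40 * L)) * Real.exp (7 / 8 * L) := by
            rw [← Real.exp_add]
            congr 1
            ring
          rw [h6]
          ring
      _ ≤ 2 * Real.exp (-(31 / 40 * L)) * ((N : ℝ) * ((m.totient : ℝ) / m)) := by gcongr
  -- the hypotheses of the core
  have hC : ∑ α : {l // l ∈ PL m X} → Option κ, Real.exp (-2 * sz lam (spp α)) ≤ 3 := by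
    refine (sum_exp_neg lam).trans ?_
    rw [← hK]
    have h1 : ∑ i : {l // l ∈ PL m X}, Real.exp (-2 * lam i) ≤ 2 / L ^ 4 := by
      have h2 : ∀ i : {l // l ∈ PL m X}, Real.exp (-2 * lam i) = (((i : ℕ) : ℝ) ^ 2)⁻¹ := by
        intro i
        have hi : (0 : ℝ) < ((i : ℕ) : ℝ) := (pow_pos hLp 4).trans (hlb i)
        rw [hlam]
        dsimp only
        rw [show -2 * Real.log ((i : ℕ) : ℝ) = -(Real.log ((i : ℕ) : ℝ) * (2 : ℕ)) by
          push_cast; ring, Real.exp_neg, Real.exp_mul, Real.exp_log hi, Real.rpow_natCast]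
      rw [Finset.sum_congr rfl fun i _ => h2 i]
      have h3 : ∑ i : {l // l ∈ PL m X}, (((i : ℕ) : ℝ) ^ 2)⁻¹ =
          ∑ l ∈ PL m X, ((l : ℝ) ^ 2)⁻¹ :=
        Finset.sum_coe_sort (PL m X) (fun l => ((l : ℝ) ^ 2)⁻¹)
      rw [h3]
      have h4 : PL m X ⊆ Ioo ⌊L ^ 4⌋₊ (⌊Real.exp (Real.sqrt L)⌋₊ + 1) := by
        intro l hl
        rw [PL, mem_filter, mem_Icc] at hl
        rw [mem_Ioo]
        refine ⟨?_, Nat.lt_succ_of_le hl.1.2⟩
        rw [Nat.floor_lt (by positivity)]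
        exact hl.2.2.1
      calc ∑ l ∈ PL m X, ((l : ℝ) ^ 2)⁻¹ ≤
            ∑ l ∈ Ioo ⌊L ^ 4⌋₊ (⌊Real.exp (Real.sqrt L)⌋₊ + 1), ((l : ℝ) ^ 2)⁻¹ :=
            Finset.sum_le_sum_of_subset_of_nonneg h4 fun l _ _ => by positivity
        _ ≤ 2 / ((⌊L ^ 4⌋₊ : ℝ) + 1) := sum_Ioo_inv_sq_le _ _
        _ ≤ 2 / L ^ 4 := by
            apply div_le_div_of_nonneg_left (by norm_num) (by positivity)
            exact (Nat.lt_floor_add_one _).le
    have h2 : K * ∑ i : {l // l ∈ PL m X}, Real.exp (-2 * lam i) ≤ 1 := by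
      calc K * ∑ i : {l // l ∈ PL m X}, Real.exp (-2 * lam i) ≤ L * (2 / L ^ 4) :=
            mul_le_mul hK1 h1 (Finset.sum_nonneg fun _ _ => (Real.exp_pos _).le) hLp.le
        _ = 2 / L ^ 3 := by
            field_simp
        _ ≤ 1 := by
            rw [div_le_one (by positivity)]
            linarith
    calc Real.exp (K * ∑ i : {l // l ∈ PL m X}, Real.exp (-2 * lam i)) ≤ Real.exp 1 :=
          Real.exp_le_exp.2 h2
      _ ≤ 3 := by
          have := Real.exp_one_lt_d9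
          linarith
  have hε : ∀ α : {l // l ∈ PL m X} → Option κ, sz lam (spp α) ≤ L / 40 →
      ∏ i ∈ spp α, (1 + ((Fintype.card κ : ℝ) - 1) / q i) ≤ 1 + 1 / 4 := by
    intro α hα
    rw [← hK]
    have h1 := hsum1 (spp α) K hK0 hα
    have h2 : 2 * K / L ^ 3 ≤ 1 / 8 := by
      rw [div_le_iff₀ (by positivity)]
      have h4 : (16 : ℝ) ^ 2 ≤ L ^ 2 := by gcongr
      calc 2 * K ≤ 2 * L := by linarith
        _ ≤ 1 / 8 * (L * 16 ^ 2) := by linarith
        _ ≤ 1 / 8 * (L * L ^ 2) := by gcongr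
        _ = 1 / 8 * L ^ 3 := by ring
    have h3 : ∏ i ∈ spp α, (1 + (K - 1) / q i) ≤ ∏ i ∈ spp α, Real.exp (K / q i) := by
      apply Finset.prod_le_prod
      · intro i _
        have h4 := hqb i
        have h5 := hq0 i
        have h6 : -1 ≤ (K - 1) / q i := by
          rw [le_div_iff₀ h5]
          linarith
        linarith
      · intro i _
        have h5 := hq0 i
        have h4 := Real.add_one_le_exp (K / q i)
        have h6 : (K - 1) / q i ≤ K / q i := div_le_div_of_nonneg_right (by linarith) h5.le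
        linarith
    refine h3.trans ?_
    rw [← Real.exp_sum]
    have h7 := exp_sub_one_le (u := 1 / 8) (by norm_num) (by norm_num)
    calc Real.exp (∑ i ∈ spp α, K / q i) ≤ Real.exp (1 / 8) :=
          Real.exp_le_exp.2 (h1.trans h2)
      _ ≤ 1 + 1 / 4 := by linarith
  have hδ : ∀ α : {l // l ∈ PL m X} → Option κ, sz lam (spp α) ≤ L / 40 →
      ∑ i ∈ spp α, 2 / q i ≤ 4 / L ^ 3 := by
    intro α hα
    have h1 := hsum1 (spp α) 2 (by norm_num) hα
    refine h1.trans (le_of_eq ?_)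
    norm_num
  have herr : ∀ α β : {l // l ∈ PL m X} → Option κ, sz lam (spp α) ≤ L / 40 →
      sz lam (spp β) ≤ L / 40 →
      |(∑ ω ∈ (range N).filter (fun x => (b + W * x).Coprime m),
        vl (fun (i : {l // l ∈ PL m X}) (k : κ) (x : ℕ) => xr (r k i) i (b + W * x)) α ω *
        vl (fun (i : {l // l ∈ PL m X}) (k : κ) (x : ℕ) => xr (r k i) i (b + W * x)) β ω) /
        ((N : ℝ) * ((m.totient : ℝ) / m)) - gram q α β| ≤
      (2 ^ m.primeFactors.card / ((N : ℝ) * ((m.totient : ℝ) / m))) *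
        (Real.exp (sz lam (spp α)) * Real.exp (sz lam (spp β))) := by
    intro α β _ _
    rw [hq, hlam]
    exact herrG m W b N X κ r hr α β hm hW hN0 hWm hWp
  have h1' : (Fintype.card κ : ℝ) * ((4 / L ^ 3) ^ 2 +
      Real.exp ((2 * (1 / σ) * (Fintype.card κ : ℝ) - (L / 40 - Real.sqrt L)) /
        Real.sqrt L)) ≤ 1 / 8 := by
    rw [← hK]
    have h1 : (2 * (1 / σ) * K - (L / 40 - Real.sqrt L)) / Real.sqrt L ≤
        1 - Real.sqrt L / 80 := by
      rw [div_le_iff₀ hsqrt]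
      have h2 : 2 * (1 / σ) * K ≤ L / 80 := by
        calc 2 * (1 / σ) * K ≤ 2 * (1 / s) * (s / 160 * L) := by gcongr
          _ = L / 80 := by
              field_simp
              norm_num
      have h3 : (1 - Real.sqrt L / 80) * Real.sqrt L = Real.sqrt L - L / 80 := by
        calc (1 - Real.sqrt L / 80) * Real.sqrt L =
              Real.sqrt L - (Real.sqrt L * Real.sqrt L) / 80 := by ring
          _ = _ := by rw [hsqrt2]
      rw [h3]
      linarith
    calc K * ((4 / L ^ 3) ^ 2 +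
          Real.exp ((2 * (1 / σ) * K - (L / 40 - Real.sqrt L)) / Real.sqrt L)) ≤
          L * ((4 / L ^ 3) ^ 2 + Real.exp (1 - Real.sqrt L / 80)) := by
          gcongr
      _ = L * (4 / L ^ 3) ^ 2 + L * Real.exp (1 - Real.sqrt L / 80) := by ring
      _ ≤ 1 / 16 + 1 / 16 := by
          have h2 : L * (4 / L ^ 3) ^ 2 ≤ 1 / 16 := by
            have h3 : L * (4 / L ^ 3) ^ 2 = 16 / (L ^ 2 * L ^ 3) := by
              field_simp
              norm_num
            have h4 : (16 : ℝ) ^ 2 ≤ L ^ 2 := by gcongr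
            have h5 : (16 : ℝ) ^ 3 ≤ L ^ 3 := by gcongr
            rw [h3, div_le_iff₀ (by positivity)]
            calc (16 : ℝ) ≤ 1 / 16 * (16 ^ 2 * 16 ^ 3) := by norm_num
              _ ≤ 1 / 16 * (L ^ 2 * L ^ 3) := by gcongr
          linarith
      _ = 1 / 8 := by norm_num
  have h2' : ((Fintype.card κ : ℝ) + 1) *
      (2 ^ m.primeFactors.card / ((N : ℝ) * ((m.totient : ℝ) / m)) *
        (Real.exp (3 * (L / 40)) * 3) ^ 2) ≤ 1 / 4 := by
    rw [← hK]
    have h1 : (Real.exp (3 * (L / 40)) * 3) ^ 2 = 9 * Real.exp (3 / 20 * L) := by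
      rw [mul_pow, ← Real.exp_nat_mul]
      rw [show ((2 : ℕ) : ℝ) * (3 * (L / 40)) = 3 / 20 * L by push_cast; ring]
      ring
    rw [h1]
    calc (K + 1) * (2 ^ m.primeFactors.card / ((N : ℝ) * ((m.totient : ℝ) / m)) *
          (9 * Real.exp (3 / 20 * L))) ≤
          (L + 1) * (2 * Real.exp (-(31 / 40 * L)) * (9 * Real.exp (3 / 20 * L))) := by
          gcongr
      _ = 18 * (L + 1) * (Real.exp (-(31 / 40 * L)) * Real.exp (3 / 20 * L)) := by ring
      _ = 18 * (L + 1) * Real.exp (-(5 / 8 * L)) := by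
          rw [← Real.exp_add]
          congr 2
          ring
      _ ≤ 1 / 4 := e5
  have hnorm : 1 / σ * ∑ T, s0 lam q (Real.sqrt L) T = 1 := by
    rw [← hσdef]
    field_simp
  have hcore := core (ι := {l // l ∈ PL m X}) (κ := κ) (q := q) (lam := lam)
    (a := 1 / σ) (B := L / 40) (B1 := Real.sqrt L) hlam0 hq0 ha hal hsqrt (by linarith)
    hnorm
    (fun (i : {l // l ∈ PL m X}) (k : κ) (x : ℕ) => xr (r k i) i (b + W * x))
    ((range N).filter (fun x => (b + W * x).Coprime m))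
    (M := (N : ℝ) * ((m.totient : ℝ) / m)) (ε := 1 / 4)
    (η := 2 ^ m.primeFactors.card / ((N : ℝ) * ((m.totient : ℝ) / m))) (C := 3)
    (δ := 4 / L ^ 3) hM (by positivity) (by norm_num) le_rfl hC hε (by positivity) hδ herr h1' h2'
  obtain ⟨x, hx, hx2⟩ := hcore
  rw [mem_filter, mem_range] at hx
  refine ⟨x, ?_, hx.2, ?_⟩
  · have h1 : (x : ℝ) ≤ N := by exact_mod_cast hx.1.le
    have h2 : (N : ℝ) ≤ X / W := by
      rw [hN]
      exact Nat.floor_le (by positivity)
    push_cast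
    calc (W : ℝ) * x ≤ W * (X / W) := by
          gcongr
          exact h1.trans h2
      _ = X := by field_simp
  · intro k
    obtain ⟨i, hi⟩ := hx2 k
    refine ⟨i, i.2, ?_⟩
    by_contra hcon
    apply hi
    rw [hq]
    simp only [xr]
    rw [if_neg hcon]

end

end Pool.Agent.DLG
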