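import Mathlib
import Pool.Agent.DLG.Eng

set_option autoImplicit false

/-!
The engine for linear forms `α + β n` in one variable `n`.
-/

namespace Pool.Agent.DLG

open Finset Filter Pool.Agent.Lib_helper9.LG

noncomputable section

theorem engG' : StmtG := engG sigmaH2 om

/-- The residue class modulo `l` of the zero of `α + β n`. -/
def rz (α β : ℤ) (l : ℕ) : ℕ := (-(α : ZMod l) * (β : ZMod l)⁻¹).val

lemma rz_spec {α β : ℤ} {l n : ℕ} (hl : l.Prime) (hβ : ¬ (l : ℤ) ∣ β)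
    (h : n ≡ rz α β l [MOD l]) : (l : ℤ) ∣ α + β * (n : ℤ) := by
  haveI : Fact l.Prime := ⟨hl⟩
  have hb : (β : ZMod l) ≠ 0 := by
    intro h0
    exact hβ ((ZMod.intCast_zmod_eq_zero_iff_dvd β l).1 h0)
  have h1 : ((n : ℕ) : ZMod l) = -(α : ZMod l) * (β : ZMod l)⁻¹ := by
    have h2 := (ZMod.natCast_eq_natCast_iff _ _ l).2 h
    rw [h2, rz, ZMod.natCast_zmod_val]
  rw [← ZMod.intCast_zmod_eq_zero_iff_dvd]
  push_cast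
  rw [h1]
  field_simp
  ring

lemma rz_inj {α β α' β' : ℤ} {l : ℕ} (hl : l.Prime) (hβ : ¬ (l : ℤ) ∣ β) (hβ' : ¬ (l : ℤ) ∣ β')
    (h : rz α β l ≡ rz α' β' l [MOD l]) : (l : ℤ) ∣ α * β' - α' * β := by
  haveI : Fact l.Prime := ⟨hl⟩
  have hb : (β : ZMod l) ≠ 0 := by
    intro h0
    exact hβ ((ZMod.intCast_zmod_eq_zero_iff_dvd β l).1 h0)
  have hb' : (β' : ZMod l) ≠ 0 := by
    intro h0
    exact hβ' ((ZMod.intCast_zmod_eq_zero_iff_dvd β' l).1 h0)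
  have h2 := (ZMod.natCast_eq_natCast_iff _ _ l).2 h
  rw [rz, rz, ZMod.natCast_zmod_val, ZMod.natCast_zmod_val] at h2
  rw [← ZMod.intCast_zmod_eq_zero_iff_dvd]
  push_cast
  have h3 : (α : ZMod l) * (β : ZMod l)⁻¹ = (α' : ZMod l) * (β' : ZMod l)⁻¹ := by
    have h4 := congrArg (fun t => -t) h2
    simpa using h4
  have h5 : (α : ZMod l) = (α' : ZMod l) * (β' : ZMod l)⁻¹ * β := by
    rw [← h3]
    field_simp
  rw [h5]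
  field_simp
  ring

/-- **The engine for linear forms.** -/
theorem engL : ∃ c₁ : ℝ, 0 < c₁ ∧ ∀ A : ℕ, ∃ X₀ : ℝ, ∀ X : ℝ, X₀ ≤ X → ∀ m W b : ℕ, 1 ≤ m →
    (m : ℝ) ≤ X ^ A → 1 ≤ W → (W : ℝ) ^ 8 ≤ X → W.Coprime m →
    (∀ p : ℕ, p.Prime → p ∣ W → (p : ℝ) ≤ (Real.log X) ^ 4) →
    ∀ (κ : Type) [Fintype κ] (α β : κ → ℤ),
    (∀ l ∈ PL m X, ∀ k, ¬ (l : ℤ) ∣ β k) →
    (∀ l ∈ PL m X, ∀ k j, k ≠ j → ¬ (l : ℤ) ∣ α k * β j - α j * β k) →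
    (Fintype.card κ : ℝ) ≤ c₁ * Real.log X →
    ∃ x : ℕ, ((W * x : ℕ) : ℝ) ≤ X ∧ (b + W * x).Coprime m ∧ ∀ k, ∃ l ∈ PL m X,
      (l : ℤ) ∣ α k + β k * ((b + W * x : ℕ) : ℤ) := by
  classical
  obtain ⟨c₁, hc₁, h⟩ := engG'
  refine ⟨c₁, hc₁, fun A => ?_⟩
  obtain ⟨X₀, hX₀⟩ := h A
  refine ⟨X₀, fun X hX m W b hm hmX hW hWX hWm hWp κ _ α β hβ hαβ hc => ?_⟩
  obtain ⟨x, h1, h2, h3⟩ := hX₀ X hX m W b hm hmX hW hWX hWm hWp κ (fun k l => rz (α k) (β k) l)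
    (fun l hl k j hkj hcon => hαβ l hl k j hkj
      (rz_inj (mem_PLe hl).1 (hβ l hl k) (hβ l hl j) hcon)) hc
  refine ⟨x, h1, h2, fun k => ?_⟩
  obtain ⟨l, hl, h4⟩ := h3 k
  exact ⟨l, hl, rz_spec (mem_PLe hl).1 (hβ l hl k) h4⟩

end

end Pool.Agent.DLG
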