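import Mathlib
import Pool.Agent.DLG.Lin
import Pool.Agent.UNI.B4
import Pool.Agent.UNI.B5

set_option autoImplicit false

/-!
The box: all the numbers `k m + h` with `1 ≤ k ≤ c₀ log x`, `|h| ≤ c₀ log x` are composite.
-/

namespace Pool.Agent.DLG

open Finset Filter BlockSieve Pool.Agent.Lib_helper9.LG Pool.Agent.UNI

noncomputable section

/-- A class `-1` modulo `W`. -/
lemma exists_neg_one (y W : ℕ) (hW : 1 ≤ W) : ∃ b : ℕ, y ≤ b ∧ b < y + W ∧ W ∣ b + 1 := by
  refine ⟨(y + W) / W * W - 1, ?_, ?_, ?_⟩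
  · have h1 := Nat.lt_div_mul_add (a := y + W) (b := W) (by omega)
    omega
  · have h1 := Nat.div_mul_le_self (y + W) W
    have h2 := Nat.lt_div_mul_add (a := y + W) (b := W) (by omega)
    omega
  · have h2 := Nat.lt_div_mul_add (a := y + W) (b := W) (by omega)
    have h3 : (y + W) / W * W - 1 + 1 = (y + W) / W * W := by omega
    rw [h3]
    exact Dvd.intro_left _ rfl

lemma not_dvd_of_lt {l : ℕ} {n : ℤ} (h0 : n ≠ 0) (h : |n| < l) : ¬ (l : ℤ) ∣ n := by
  intro hd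
  have := Int.le_of_dvd (abs_pos.2 h0) ((dvd_abs _ _).2 hd)
  omega

lemma ev_box (X₀ : ℝ) : ∀ᶠ n : ℕ in atTop, 64 ≤ n ∧ 4 * X₀ ≤ (n : ℝ) ∧ 200 ≤ Real.log (n : ℝ) ∧
    16 * Real.log (n : ℝ) ≤ n := by
  have h2 : Tendsto (fun n : ℕ => Real.log (n : ℝ)) atTop atTop :=
    Real.tendsto_log_atTop.comp tendsto_natCast_atTop_atTop
  have h1 : Tendsto (fun n : ℕ => (n : ℝ)) atTop atTop := tendsto_natCast_atTop_atTop
  have h3 := h1.eventually (ev_real 16 1)
  filter_upwards [eventually_ge_atTop 64, h1.eventually_ge_atTop (4 * X₀),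
    h2.eventually_ge_atTop 200, h3] with n e1 e2 e3 e4
  refine ⟨e1, e2, e3, ?_⟩
  simpa using e4

/-- **The box.** -/
theorem box : ∃ c₀ : ℝ, 0 < c₀ ∧ ∃ x₀ : ℕ, ∀ n : ℕ, x₀ ≤ n → ∀ y : ℕ, ∃ m : ℕ, y ≤ m ∧ m ≤ y + n ∧
    (∀ h : ℤ, h ≠ 0 → |(h : ℝ)| ≤ c₀ * Real.log n → IsCoprime h (m : ℤ)) ∧
    ∀ k h : ℤ, 1 ≤ k → (k : ℝ) ≤ c₀ * Real.log n → |(h : ℝ)| ≤ c₀ * Real.log n →
      ¬ Prime (k * m + h) := by
  classical
  obtain ⟨c₁, hc₁, hE⟩ := engL
  obtain ⟨c₀, hc₀⟩ : ∃ c₀, c₀ = min (c₁ / 8) (1 / 100) := ⟨_, rfl⟩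
  have hc0 : 0 < c₀ := by rw [hc₀]; positivity
  have hc01 : c₀ ≤ c₁ / 8 := by rw [hc₀]; exact min_le_left _ _
  have hc02 : c₀ ≤ 1 / 100 := by rw [hc₀]; exact min_le_right _ _
  obtain ⟨X₀, hX₀⟩ := hE 1
  obtain ⟨N₁, hN₁⟩ := eventually_atTop.1 (ev_box X₀)
  refine ⟨c₀, hc0, N₁, fun n hn y => ?_⟩
  obtain ⟨g1, g2, g3, g4⟩ := hN₁ n hn
  obtain ⟨L, hL⟩ : ∃ L, L = Real.log (n : ℝ) := ⟨_, rfl⟩
  rw [← hL] at g3 g4 ⊢
  have hn4 : (64 : ℝ) ≤ n := by exact_mod_cast g1
  have hn0 : (0 : ℝ) < n := by linarith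
  have hL0 : 0 < L := by linarith
  obtain ⟨X, hX⟩ : ∃ X : ℝ, X = (n : ℝ) / 4 := ⟨_, rfl⟩
  have hX0 : 0 < X := by rw [hX]; positivity
  have hX16 : 16 ≤ X := by rw [hX]; linarith
  have hlogX : Real.log X = L - Real.log 4 := by
    rw [hX, Real.log_div hn0.ne' (by norm_num), ← hL]
  have hlog2 : 0 < Real.log 4 := Real.log_pos (by norm_num)
  have hlog2' : Real.log 4 < 2 := by
    have := log_four_le
    linarith
  have hlX1 : L / 2 ≤ Real.log X := by
    rw [hlogX]
    linarith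
  have hlX2 : 16 ≤ Real.log X := by linarith
  have hXE : X₀ ≤ X := by
    rw [hX]
    linarith
  -- the number of rows
  obtain ⟨K, hK⟩ : ∃ K : ℕ, K = ⌊c₀ * L⌋₊ := ⟨_, rfl⟩
  have hKle : (K : ℝ) ≤ c₀ * L := by rw [hK]; exact Nat.floor_le (by positivity)
  have hK100 : (K : ℝ) ≤ L / 100 := by
    refine hKle.trans ?_
    calc c₀ * L ≤ 1 / 100 * L := by gcongr
      _ = _ := by ring
  -- the modulus
  obtain ⟨z, hz⟩ : ∃ z : ℕ, z = yM 8 n := ⟨_, rfl⟩
  have hz' : z = ⌊L / 39⌋₊ := by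
    rw [hz, yM, hL]
    norm_num
  have hzL : (z : ℝ) ≤ L / 39 := by
    rw [hz']
    exact Nat.floor_le (by positivity)
  have hzL2 : L / 39 < z + 1 := by
    rw [hz']
    exact Nat.lt_floor_add_one _
  have h2Kz : 2 * K ≤ z := by
    have h1 : (2 * K : ℝ) ≤ z := by linarith
    exact_mod_cast h1
  have hz2 : 2 ≤ z := by
    have h1 : (1 : ℝ) < z := by linarith
    have h2 : 1 < z := by exact_mod_cast h1
    omega
  obtain ⟨W, hW⟩ : ∃ W : ℕ, W = ∏ l ∈ pr z, l := ⟨_, rfl⟩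
  have hQp : ∀ l ∈ pr z, l.Prime := fun l hl => (mem_pr.1 hl).1
  have hWpos : 1 ≤ W := by rw [hW]; exact Finset.prod_pos fun l hl => (hQp l hl).pos
  have hWr : (0 : ℝ) < W := by exact_mod_cast hWpos
  have hlogW : Real.log W ≤ Real.log 4 * z := by
    rw [hW]
    exact prod_pr_log_le z
  have hW8 : 8 * Real.log W ≤ L / 2 := by
    have h1 := log_four_le
    calc 8 * Real.log W ≤ 8 * (Real.log 4 * z) := by gcongr
      _ ≤ 8 * ((1387 / 1000) * (L / 39)) := by
          have h5 : (0 : ℝ) ≤ z := Nat.cast_nonneg _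
          gcongr
      _ ≤ L / 2 := by linarith
  have hWX : (W : ℝ) ^ 8 ≤ X := by
    rw [← Real.log_le_log_iff (by positivity) hX0, Real.log_pow]
    push_cast
    linarith
  have hWX1 : (W : ℝ) ≤ X := by
    refine le_trans ?_ hWX
    have h1 : (1 : ℝ) ≤ W := by exact_mod_cast hWpos
    exact le_self_pow₀ h1 (by norm_num)
  have hL4 : L ≤ (Real.log X) ^ 4 := by
    have h2 : (L / 2) ^ 4 ≤ (Real.log X) ^ 4 := by gcongr
    refine le_trans ?_ h2
    have h3 : (50 : ℝ) ^ 3 ≤ (L / 2) ^ 3 := by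
      have : 50 ≤ L / 2 := by linarith
      gcongr
    calc L = (L / 2) * 2 := by ring
      _ ≤ (L / 2) * (L / 2) ^ 3 := by
          gcongr
          linarith
      _ = (L / 2) ^ 4 := by ring
  have hWp : ∀ p : ℕ, p.Prime → p ∣ W → (p : ℝ) ≤ (Real.log X) ^ 4 := by
    intro p hp hpW
    rw [hW] at hpW
    obtain ⟨l, hl, hpl⟩ := (hp.prime.dvd_finsetProd_iff _).1 hpW
    rw [(Nat.prime_dvd_prime_iff_eq hp (hQp l hl)).1 hpl]
    have h1 : (l : ℝ) ≤ z := by exact_mod_cast (mem_pr.1 hl).2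
    linarith
  -- the start
  obtain ⟨y', hy'⟩ : ∃ y' : ℕ, y' = max y (n / 4 + 1) := ⟨_, rfl⟩
  have hyy' : y ≤ y' := by rw [hy']; exact le_max_left _ _
  have hXy' : X < y' := by
    have h1 : n < 4 * y' := by
      have : n / 4 + 1 ≤ y' := by rw [hy']; exact le_max_right _ _
      omega
    have h2 : (n : ℝ) < 4 * y' := by exact_mod_cast h1
    rw [hX]
    linarith
  have hy'n : 2 * y' + n ≤ 2 * y + 2 * n := by
    rcases le_total y (n / 4 + 1) with h | h
    · rw [hy', max_eq_right h]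
      omega
    · rw [hy', max_eq_left h]
      omega
  obtain ⟨b, hb1, hb2, hb3⟩ := exists_neg_one y' W hWpos
  -- the window
  have hlw : ∀ l ∈ PL 1 X, (2 * K : ℤ) < l := by
    intro l hl
    have h1 := (mem_PLe hl).2.1
    have h2 : (2 * K : ℝ) < l := by linarith
    exact_mod_cast h2
  -- the sites
  obtain ⟨x, hx1, -, hx3⟩ := hX₀ X hXE 1 W b le_rfl (by simpa using by linarith) hWpos hWX
    (Nat.coprime_one_right W) hWp (Fin K × Bool)
    (fun s => ((s.1 : ℕ) : ℤ) + 1 - (if s.2 then 1 else -1)) (fun s => ((s.1 : ℕ) : ℤ) + 1)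
    (by
      intro l hl s
      have h1 := hlw l hl
      have h2 := s.1.2
      refine not_dvd_of_lt (by omega) ?_
      rw [abs_of_pos (by omega)]
      omega)
    (by
      rintro l hl ⟨i, e⟩ ⟨j, e'⟩ hne
      have h1 := hlw l hl
      have h2 := i.2
      have h3 := j.2
      dsimp only
      have h4 : ((i : ℕ) : ℤ) < K := by exact_mod_cast h2
      have h5 : ((j : ℕ) : ℤ) < K := by exact_mod_cast h3
      have h6 : (0 : ℤ) ≤ ((i : ℕ) : ℤ) := Int.natCast_nonneg _
      have h7 : (0 : ℤ) ≤ ((j : ℕ) : ℤ) := Int.natCast_nonneg _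
      have key : (((i : ℕ) : ℤ) + 1 - (if e then 1 else -1)) * (((j : ℕ) : ℤ) + 1) -
          (((j : ℕ) : ℤ) + 1 - (if e' then 1 else -1)) * (((i : ℕ) : ℤ) + 1) =
          (if e' then 1 else -1) * (((i : ℕ) : ℤ) + 1) - (if e then 1 else -1) * (((j : ℕ) : ℤ) + 1) := by
        ring
      rw [key]
      have hne' : ¬ (((i : ℕ) : ℤ) = ((j : ℕ) : ℤ) ∧ e = e') := by
        rintro ⟨h8, h9⟩
        apply hne
        rw [h9]
        have : i = j := Fin.ext (by exact_mod_cast h8)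
        rw [this]
      refine not_dvd_of_lt ?_ ?_
      · cases e <;> cases e' <;> simp at hne' ⊢ <;> omega
      · rw [abs_lt]
        cases e <;> cases e' <;> simp <;> omega)
    (by
      rw [Fintype.card_prod, Fintype.card_fin, Fintype.card_bool]
      push_cast
      calc (K : ℝ) * 2 ≤ (c₀ * L) * 2 := by gcongr
        _ ≤ (c₁ / 8 * L) * 2 := by gcongr
        _ = c₁ * (L / 4) := by ring
        _ ≤ c₁ * Real.log X := by
            gcongr
            linarith)
  obtain ⟨m, hm⟩ : ∃ m : ℕ, m = b + W * x := ⟨_, rfl⟩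
  rw [← hm] at hx3
  have hWm : W ∣ m + 1 := by
    have h1 : m + 1 = (b + 1) + W * x := by rw [hm]; ring
    rw [h1]
    exact dvd_add hb3 (Dvd.intro _ rfl)
  have hlm : ∀ l : ℕ, l.Prime → l ≤ z → l ∣ m + 1 := by
    intro l hl hlz
    refine dvd_trans ?_ hWm
    rw [hW]
    exact Finset.dvd_prod_of_mem _ (mem_pr.2 ⟨hl, hlz⟩)
  refine ⟨m, by omega, ?_, ?_, ?_⟩
  · push_cast at hx1
    have h1 : (b : ℝ) ≤ y' + W := by exact_mod_cast hb2.le
    have h2 : 2 * (X + X) = (n : ℝ) := by rw [hX]; ring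
    have h4 : 2 * (y' : ℝ) + n ≤ 2 * y + 2 * n := by exact_mod_cast hy'n
    have h3 : ((b + W * x : ℕ) : ℝ) ≤ ((y + n : ℕ) : ℝ) := by
      push_cast
      linarith
    rw [hm]
    exact_mod_cast h3
  · -- coprimality
    intro h h0 hh
    have h1 : (h.natAbs : ℝ) ≤ c₀ * L := by
      rw [Nat.cast_natAbs]
      exact_mod_cast hh
    have h2 : h.natAbs ≤ K := by
      rw [hK]
      exact Nat.le_floor h1
    rw [Int.isCoprime_iff_gcd_eq_one, Int.gcd, Int.natAbs_natCast]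
    by_contra hcon
    obtain ⟨l, hl, hld⟩ := Nat.exists_prime_and_dvd hcon
    have h3 : l ∣ h.natAbs := hld.trans (Nat.gcd_dvd_left _ _)
    have h4 : l ∣ m := hld.trans (Nat.gcd_dvd_right _ _)
    have h5 : l ≤ h.natAbs := Nat.le_of_dvd (Int.natAbs_pos.2 h0) h3
    have h6 := hlm l hl (by omega)
    have h7 := (Nat.dvd_add_right h4).1 h6
    exact hl.one_lt.ne' (Nat.dvd_one.1 h7)
  · intro k h hk1 hk2 hh hp
    have hk3 : k ≤ K := by
      have h1 : (k.toNat : ℝ) ≤ c₀ * L := by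
        have : ((k.toNat : ℤ) : ℝ) = (k : ℝ) := by rw [Int.toNat_of_nonneg (by omega)]
        rw [← this] at hk2
        exact_mod_cast hk2
      have h2 : k.toNat ≤ K := by
        rw [hK]
        exact Nat.le_floor h1
      omega
    have hh2 : h.natAbs ≤ K := by
      have h1 : (h.natAbs : ℝ) ≤ c₀ * L := by
        rw [Nat.cast_natAbs]
        exact_mod_cast hh
      rw [hK]
      exact Nat.le_floor h1
    have hh3 : |h| ≤ K := by
      rw [Int.abs_eq_natAbs]
      exact_mod_cast hh2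
    rw [abs_le] at hh3
    -- a prime divisor that is too small
    have hbig : ∀ l : ℕ, l.Prime → (l : ℝ) ≤ X / 2 → (l : ℤ) ∣ k * m + h → False := by
      intro l hl hlX hld
      have h1 : Nat.Prime (k * m + h).natAbs := Int.prime_iff_natAbs_prime.1 hp
      have h2 : l ∣ (k * m + h).natAbs := Int.natCast_dvd.1 hld
      have h3 := (Nat.prime_dvd_prime_iff_eq hl h1).1 h2
      have h4 : (m : ℤ) ≤ k * m := le_mul_of_one_le_left (Int.natCast_nonneg _) hk1
      have h5 : (m : ℤ) - K ≤ l := by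
        have h6 : ((k * m + h).natAbs : ℤ) = |k * m + h| := (Int.abs_eq_natAbs _).symm
        have h7 : k * m + h ≤ |k * m + h| := le_abs_self _
        have h8 : (l : ℤ) = ((k * m + h).natAbs : ℤ) := by exact_mod_cast h3
        omega
      have h6 : (m : ℝ) - K ≤ l := by exact_mod_cast h5
      have h7 : (y' : ℝ) ≤ m := by exact_mod_cast (by omega : y' ≤ m)
      have h8 : L ≤ X / 4 := by
        rw [hX]
        linarith
      linarith
    have hexp : Real.exp (Real.sqrt (Real.log X)) ≤ X / 2 := by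
      have h1 : Real.sqrt (Real.log X) ≤ Real.log X - Real.log 4 := by
        have h2 : Real.sqrt (Real.log X) ≤ Real.log X / 2 := by
          rw [Real.sqrt_le_left (by linarith)]
          have h3 : Real.log X * 4 ≤ Real.log X * Real.log X :=
            mul_le_mul_of_nonneg_left (by linarith) (by linarith)
          calc Real.log X = Real.log X * 4 / 4 := by ring
            _ ≤ Real.log X * Real.log X / 4 := by linarith
            _ = (Real.log X / 2) ^ 2 := by ring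
        linarith
      calc Real.exp (Real.sqrt (Real.log X)) ≤ Real.exp (Real.log X - Real.log 4) :=
            Real.exp_le_exp.2 h1
        _ = X / 4 := by rw [Real.exp_sub, Real.exp_log hX0, Real.exp_log (by norm_num)]
        _ ≤ X / 2 := by linarith
    have hzX : (z : ℝ) ≤ X / 2 := by
      rw [hX]
      linarith
    have hform : k * m + h = k * ((m : ℤ) + 1) - (k - h) := by ring
    by_cases hn1 : k - h = 1 ∨ k - h = -1
    · obtain ⟨i, hi⟩ : ∃ i : ℕ, k = (i : ℤ) + 1 := ⟨(k - 1).toNat, by omega⟩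
      have hiK : i < K := by omega
      obtain ⟨e, he⟩ : ∃ e : Bool, k - h = if e then 1 else -1 := by
        rcases hn1 with h1 | h1
        · exact ⟨true, by simp [h1]⟩
        · exact ⟨false, by simp [h1]⟩
      obtain ⟨l, hl, hld⟩ := hx3 (⟨i, hiK⟩, e)
      dsimp only at hld
      rw [← hi, ← he] at hld
      obtain ⟨p1, p2, p3, p4⟩ := mem_PLe hl
      refine hbig l p1 (p4.trans hexp) ?_
      have h1 : k * (m : ℤ) + h = k - (k - h) + k * (m : ℤ) := by ring
      rw [h1]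
      exact hld
    · push Not at hn1
      obtain ⟨l, hl, hlz, hld⟩ : ∃ l : ℕ, l.Prime ∧ l ≤ z ∧ (l : ℤ) ∣ k - h := by
        by_cases h0 : k - h = 0
        · exact ⟨2, Nat.prime_two, hz2, by rw [h0]; exact dvd_zero _⟩
        · have h1 : (k - h).natAbs ≠ 1 := by omega
          obtain ⟨l, hl, hld⟩ := Nat.exists_prime_and_dvd h1
          refine ⟨l, hl, ?_, Int.natCast_dvd.2 hld⟩
          have h2 := Nat.le_of_dvd (Int.natAbs_pos.2 h0) hld
          omega
      refine hbig l hl ?_ ?_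
      · have h1 : (l : ℝ) ≤ z := by exact_mod_cast hlz
        linarith
      · rw [hform]
        refine dvd_sub (Dvd.dvd.mul_left ?_ _) hld
        have h1 := hlm l hl hlz
        exact_mod_cast h1

end

end Pool.Agent.DLG
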