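import Mathlib

set_option autoImplicit false

/-!
Greedy choice of nonzero classes for a general family of sites.
-/

namespace Pool.Agent.DLG

open Finset

/-- Weighted form. -/
theorem greedyW {σ : Type} (Q : Finset ℕ) (hQ : ∀ l ∈ Q, l.Prime)
    (g : σ → ℕ → ℕ) (av : σ → ℕ → Prop) (hg : ∀ s, ∀ l ∈ Q, av s l → 1 ≤ g s l ∧ g s l < l) :
    ∀ (S : Finset σ) (ω : σ → ℝ), (∀ s, 0 ≤ ω s) →
    ∃ c : ℕ → ℕ, (∀ l ∈ Q, 1 ≤ c l ∧ c l < l) ∧
      open Classical in
      ∑ s ∈ S.filter (fun s => ∀ l ∈ Q, ¬ (av s l ∧ g s l = c l)), ω s ≤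
      ∑ s ∈ S, ω s * ∏ l ∈ Q.filter (fun l => av s l), (1 - 1 / ((l : ℝ) - 1)) := by
  classical
  induction Q using Finset.induction_on with
  | empty =>
    intro S ω hω
    refine ⟨fun _ => 1, by simp, ?_⟩
    simp
  | insert l Q hl ih =>
    intro S ω hω
    have hlp : l.Prime := hQ l (mem_insert_self _ _)
    have hl2 : (2 : ℝ) ≤ l := by exact_mod_cast hlp.two_le
    have hfac : 0 ≤ 1 - 1 / ((l : ℝ) - 1) := by
      rw [sub_nonneg, div_le_one (by linarith)]
      linarith
    obtain ⟨ω', hω'⟩ : ∃ ω' : σ → ℝ, ω' = fun s =>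
      ω s * (if av s l then 1 - 1 / ((l : ℝ) - 1) else 1) := ⟨_, rfl⟩
    have hω'0 : ∀ s, 0 ≤ ω' s := by
      intro s
      rw [hω']
      dsimp only
      have := hω s
      split_ifs <;> positivity
    obtain ⟨c, hc1, hc2⟩ := ih (fun l' hl' => hQ l' (mem_insert_of_mem hl'))
      (fun s l' hl' => hg s l' (mem_insert_of_mem hl')) S ω' hω'0
    obtain ⟨S', hS'⟩ : ∃ S', S' = S.filter (fun s => ∀ l ∈ Q, ¬ (av s l ∧ g s l = c l)) := ⟨_, rfl⟩
    have hne : (Icc 1 (l - 1)).Nonempty := ⟨1, by
      rw [mem_Icc]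
      have := hlp.two_le
      omega⟩
    have key : ∑ t ∈ Icc 1 (l - 1), ∑ s ∈ S'.filter (fun s => ¬ (av s l ∧ g s l = t)), ω s ≤
        ∑ t ∈ Icc 1 (l - 1), ∑ s ∈ S', ω' s := by
      have h1 : ∀ t, ∑ s ∈ S'.filter (fun s => ¬ (av s l ∧ g s l = t)), ω s =
          ∑ s ∈ S', (if av s l ∧ g s l = t then 0 else ω s) := by
        intro t
        rw [Finset.sum_filter]
        apply Finset.sum_congr rfl
        intro s _
        by_cases h : av s l ∧ g s l = t
        · rw [if_neg (not_not.2 h), if_pos h]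
        · rw [if_pos h, if_neg h]
      rw [Finset.sum_congr rfl fun t _ => h1 t, Finset.sum_comm]
      rw [Finset.sum_const, Nat.card_Icc, nsmul_eq_mul, Finset.mul_sum]
      apply Finset.sum_le_sum
      intro s _
      have hcard : (((l - 1 + 1 - 1 : ℕ)) : ℝ) = (l : ℝ) - 1 := by
        rw [Nat.add_sub_cancel, Nat.cast_sub hlp.one_lt.le, Nat.cast_one]
      rw [hcard, hω']
      dsimp only
      by_cases h : av s l
      · rw [if_pos h]
        obtain ⟨g1, g2⟩ := hg s l (mem_insert_self _ _) h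
        have h2 : ∑ t ∈ Icc 1 (l - 1), (if av s l ∧ g s l = t then 0 else ω s) =
            ∑ t ∈ Icc 1 (l - 1), (ω s - if g s l = t then ω s else 0) := by
          apply Finset.sum_congr rfl
          intro t _
          by_cases ht : g s l = t
          · rw [if_pos ⟨h, ht⟩, if_pos ht, sub_self]
          · rw [if_neg (fun hh => ht hh.2), if_neg ht, sub_zero]
        rw [h2, Finset.sum_sub_distrib, Finset.sum_const, Nat.card_Icc, nsmul_eq_mul, hcard,
          Finset.sum_ite_eq, if_pos (mem_Icc.2 ⟨g1, by omega⟩)]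
        apply le_of_eq
        have h3 : (l : ℝ) - 1 ≠ 0 := by linarith
        field_simp
      · rw [if_neg h, mul_one]
        have h2 : ∑ t ∈ Icc 1 (l - 1), (if av s l ∧ g s l = t then 0 else ω s) =
            ∑ t ∈ Icc 1 (l - 1), ω s := by
          apply Finset.sum_congr rfl
          intro t _
          rw [if_neg (fun hh => h hh.1)]
        rw [h2, Finset.sum_const, Nat.card_Icc, nsmul_eq_mul, hcard]
    obtain ⟨t, ht, ht2⟩ := Finset.exists_le_of_sum_le hne key
    rw [mem_Icc] at ht
    have hcne : ∀ l' ∈ Q, Function.update c l t l' = c l' := by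
      intro l' hl'
      exact Function.update_of_ne (by rintro rfl; exact hl hl') _ _
    refine ⟨Function.update c l t, ?_, ?_⟩
    · intro l' hl'
      rcases mem_insert.1 hl' with rfl | h
      · rw [Function.update_self]
        have := hlp.two_le
        omega
      · rw [hcne l' h]
        exact hc1 l' h
    · have h1 : S.filter (fun s => ∀ l' ∈ insert l Q, ¬ (av s l' ∧ g s l' =
          Function.update c l t l')) = S'.filter (fun s => ¬ (av s l ∧ g s l = t)) := by
        rw [hS', Finset.filter_filter]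
        apply Finset.filter_congr
        intro s _
        rw [Finset.forall_mem_insert, Function.update_self]
        constructor
        · rintro ⟨h2, h3⟩
          exact ⟨fun l' hl' => by
            have := h3 l' hl'
            rwa [hcne l' hl'] at this, h2⟩
        · rintro ⟨h2, h3⟩
          exact ⟨h3, fun l' hl' => by
            rw [hcne l' hl']
            exact h2 l' hl'⟩
      rw [h1]
      refine ht2.trans ?_
      rw [hS']
      refine hc2.trans (le_of_eq ?_)
      apply Finset.sum_congr rfl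
      intro s _
      rw [hω']
      dsimp only
      by_cases h : av s l
      · rw [if_pos h, Finset.filter_insert, if_pos h, Finset.prod_insert]
        · ring
        · intro h2
          exact hl (mem_filter.1 h2).1
      · rw [if_neg h, Finset.filter_insert, if_neg h, mul_one]

open Classical in
/-- The number of survivors. -/
theorem greedyP {σ : Type} (Q : Finset ℕ) (hQ : ∀ l ∈ Q, l.Prime)
    (g : σ → ℕ → ℕ) (av : σ → ℕ → Prop) (hg : ∀ s, ∀ l ∈ Q, av s l → 1 ≤ g s l ∧ g s l < l)
    (S : Finset σ) : ∃ c : ℕ → ℕ, (∀ l ∈ Q, 1 ≤ c l ∧ c l < l) ∧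
      ((S.filter (fun s => ∀ l ∈ Q, ¬ (av s l ∧ g s l = c l))).card : ℝ) ≤
      ∑ s ∈ S, ∏ l ∈ Q.filter (fun l => av s l), (1 - 1 / ((l : ℝ) - 1)) := by
  obtain ⟨c, h1, h2⟩ := greedyW Q hQ g av hg S (fun _ => 1) (fun _ => zero_le_one)
  refine ⟨c, h1, ?_⟩
  simp only [one_mul] at h2
  rw [Finset.card_eq_sum_ones, Nat.cast_sum]
  simpa using h2

end Pool.Agent.DLG
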