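import Mathlib
import Pool.Agent.UNI.B2

set_option autoImplicit false

/-!
Counting pairs, and the local product at a pair.
-/

namespace Pool.Agent.DLG

open Finset Filter BlockSieve Pool.Agent.UNI

noncomputable section

/-- The pairs `(h, k)` with `k - h` without tiny and middle prime factors. -/
lemma pairs_card (H T w z y : ℕ) (hH : 1 ≤ H) (hw : 2 ≤ w) (hy : 2 ≤ y) :
    ((((Icc (-(H : ℤ)) H) ×ˢ (Icc 1 T)).filter (fun s : ℤ × ℕ =>
      ∀ l ∈ pr y, (l ≤ w ∨ z < l) → ¬ ((l : ℤ) ∣ (s.2 : ℤ) - s.1))).card : ℝ) ≤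
      6 * H * (((Icc 1 (T + H)).filter
        (fun n => ∀ l ∈ pr y, (l ≤ w ∨ z < l) → ¬ l ∣ n)).card : ℝ) := by
  classical
  obtain ⟨G, hG⟩ : ∃ G, G = (Icc 1 (T + H)).filter
    (fun n => ∀ l ∈ pr y, (l ≤ w ∨ z < l) → ¬ l ∣ n) := ⟨_, rfl⟩
  rw [← hG]
  have h1 : (((Icc (-(H : ℤ)) H) ×ˢ (Icc 1 T)).filter (fun s : ℤ × ℕ =>
      ∀ l ∈ pr y, (l ≤ w ∨ z < l) → ¬ ((l : ℤ) ∣ (s.2 : ℤ) - s.1))).card ≤
      (((Icc (-(H : ℤ)) H) ×ˢ G) ×ˢ (univ : Finset Bool)).card := by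
    refine Finset.card_le_card_of_injOn
      (fun s : ℤ × ℕ => ((s.1, ((s.2 : ℤ) - s.1).natAbs), decide (0 ≤ (s.2 : ℤ) - s.1))) ?_ ?_
    · rintro ⟨h, k⟩ hs
      rw [Finset.mem_coe, mem_filter, mem_product, mem_Icc, mem_Icc] at hs
      dsimp only at hs
      obtain ⟨⟨⟨a1, a2⟩, a3, a4⟩, a5⟩ := hs
      rw [Finset.mem_coe, mem_product, mem_product, hG, mem_filter, mem_Icc, mem_Icc]
      dsimp only
      refine ⟨⟨⟨a1, a2⟩, ⟨?_, ?_⟩, ?_⟩, mem_univ _⟩
      · by_contra hcon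
        have h2 : (k : ℤ) - h = 0 := by omega
        exact a5 2 (mem_pr.2 ⟨Nat.prime_two, hy⟩) (Or.inl hw) (by rw [h2]; exact dvd_zero _)
      · omega
      · intro l hl hlw hd
        exact a5 l hl hlw (Int.natCast_dvd.2 hd)
    · rintro ⟨h, k⟩ _ ⟨h', k'⟩ _ hs
      dsimp only at hs
      rw [Prod.mk.injEq, Prod.mk.injEq, decide_eq_decide] at hs
      obtain ⟨⟨b1, b2⟩, b3⟩ := hs
      subst b1
      have h2 : k = k' := by omega
      rw [h2]
  have h2 : (((Icc (-(H : ℤ)) H) ×ˢ G) ×ˢ (univ : Finset Bool)).card = (2 * H + 1) * G.card * 2 := by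
    rw [card_product, card_product, Int.card_Icc, Finset.card_univ, Fintype.card_bool]
    congr 2
    omega
  rw [h2] at h1
  have h3 : (2 * H + 1) * G.card * 2 ≤ 6 * H * G.card := by
    have h4 : (2 * H + 1) * 2 ≤ 6 * H := by omega
    calc (2 * H + 1) * G.card * 2 = (2 * H + 1) * 2 * G.card := by ring
      _ ≤ 6 * H * G.card := Nat.mul_le_mul_right _ h4
  exact_mod_cast h1.trans h3

lemma card_pf_le {A : ℕ} (hA : 1 ≤ A) : (A.primeFactors.card : ℝ) ≤ 2 * Real.log A := by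
  have h1 : 2 ^ A.primeFactors.card ≤ A := by
    calc 2 ^ A.primeFactors.card ≤ ∏ p ∈ A.primeFactors, p :=
          Finset.pow_card_le_prod _ _ _ (fun p hp => (Nat.prime_of_mem_primeFactors hp).two_le)
      _ ≤ A := Nat.le_of_dvd hA (Nat.prod_primeFactors_dvd A)
  have h2 : ((2 : ℝ)) ^ A.primeFactors.card ≤ A := by exact_mod_cast h1
  have h3 := Real.log_le_log (by positivity) h2
  rw [Real.log_pow] at h3
  have h4 := Real.log_two_gt_d9
  have h5 : (A.primeFactors.card : ℝ) * (1 / 2) ≤ A.primeFactors.card * Real.log 2 := by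
    apply mul_le_mul_of_nonneg_left _ (Nat.cast_nonneg _)
    linarith
  linarith

/-- The product over the available primes. -/
lemma prod_av_le {Q : Finset ℕ} {w : ℕ} (hw : 2 ≤ w) (hQ : ∀ l ∈ Q, l.Prime ∧ w < l) {a : ℕ}
    (ha : 1 ≤ a) (P : ℕ → Prop) [DecidablePred P] (hP : ∀ l ∈ Q, ¬ P l → l ∣ a) {c : ℝ}
    (hc : Real.log a ≤ c) :
    ∏ l ∈ Q.filter P, (1 - 1 / ((l : ℝ) - 1)) ≤
      Real.exp (2 * c / w) * ∏ l ∈ Q, (1 - (1 : ℝ) / l) := by
  classical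
  have hw0 : (0 : ℝ) < w := by exact_mod_cast (by omega : 0 < w)
  have hl3 : ∀ l ∈ Q, (w : ℝ) + 1 ≤ l := by
    intro l hl
    exact_mod_cast (hQ l hl).2
  have hw2 : (2 : ℝ) ≤ w := by exact_mod_cast hw
  have h1 : ∏ l ∈ Q.filter P, (1 - 1 / ((l : ℝ) - 1)) ≤ ∏ l ∈ Q.filter P, (1 - (1 : ℝ) / l) := by
    apply Finset.prod_le_prod
    · intro l hl
      have := hl3 l (mem_filter.1 hl).1
      rw [sub_nonneg, div_le_one (by linarith)]
      linarith
    · intro l hl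
      have := hl3 l (mem_filter.1 hl).1
      have h2 : (1 : ℝ) / l ≤ 1 / ((l : ℝ) - 1) :=
        one_div_le_one_div_of_le (by linarith) (by linarith)
      linarith
  have h2 : ∀ l ∈ Q, Real.exp (-(1 / (w : ℝ))) ≤ 1 - (1 : ℝ) / l := by
    intro l hl
    have h3 := hl3 l hl
    have h4 := Real.add_one_le_exp (1 / (w : ℝ))
    rw [Real.exp_neg, inv_le_comm₀ (Real.exp_pos _) (by
      rw [sub_pos, div_lt_one (by linarith)]
      linarith)]
    refine le_trans ?_ h4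
    have h5 : (1 - (1 : ℝ) / l)⁻¹ = 1 / ((l : ℝ) - 1) + 1 := by
      have h6 : (l : ℝ) - 1 ≠ 0 := by linarith
      have h7 : (l : ℝ) ≠ 0 := by linarith
      field_simp
      ring
    rw [h5]
    have h6 : 1 / ((l : ℝ) - 1) ≤ 1 / (w : ℝ) := one_div_le_one_div_of_le hw0 (by linarith)
    linarith
  obtain ⟨B, hB⟩ : ∃ B, B = Q.filter (fun l => ¬ P l) := ⟨_, rfl⟩
  have h3 : Real.exp (-(2 * c / w)) ≤ ∏ l ∈ B, (1 - (1 : ℝ) / l) := by
    have h4 : ∏ l ∈ B, Real.exp (-(1 / (w : ℝ))) ≤ ∏ l ∈ B, (1 - (1 : ℝ) / l) := by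
      apply Finset.prod_le_prod
      · intro l _
        exact (Real.exp_pos _).le
      · intro l hl
        rw [hB] at hl
        exact h2 l (mem_filter.1 hl).1
    refine le_trans ?_ h4
    rw [Finset.prod_const, ← Real.exp_nat_mul]
    apply Real.exp_le_exp.2
    have h5 : B.card ≤ a.primeFactors.card := by
      apply Finset.card_le_card
      intro l hl
      rw [hB, mem_filter] at hl
      rw [Nat.mem_primeFactors]
      exact ⟨(hQ l hl.1).1, hP l hl.1 hl.2, by omega⟩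
    have h6 : (B.card : ℝ) ≤ 2 * c := by
      have h7 : (B.card : ℝ) ≤ a.primeFactors.card := by exact_mod_cast h5
      have h8 := card_pf_le ha
      linarith
    have h7 : (B.card : ℝ) / w ≤ 2 * c / w := div_le_div_of_nonneg_right h6 hw0.le
    have h8 : (B.card : ℝ) * -(1 / (w : ℝ)) = -(B.card / w) := by ring
    rw [h8]
    linarith
  have h4 : (∏ l ∈ Q.filter P, (1 - (1 : ℝ) / l)) * ∏ l ∈ B, (1 - (1 : ℝ) / l) =
      ∏ l ∈ Q, (1 - (1 : ℝ) / l) := by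
    rw [hB]
    exact Finset.prod_filter_mul_prod_filter_not Q P _
  have h5 : 0 ≤ ∏ l ∈ Q.filter P, (1 - (1 : ℝ) / l) := by
    apply Finset.prod_nonneg
    intro l hl
    have := hl3 l (mem_filter.1 hl).1
    rw [sub_nonneg, div_le_one (by linarith)]
    linarith
  refine h1.trans ?_
  calc ∏ l ∈ Q.filter P, (1 - (1 : ℝ) / l) =
        Real.exp (2 * c / w) * ((∏ l ∈ Q.filter P, (1 - (1 : ℝ) / l)) * Real.exp (-(2 * c / w))) := by
        rw [Real.exp_neg]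
        field_simp
    _ ≤ Real.exp (2 * c / w) * ((∏ l ∈ Q.filter P, (1 - (1 : ℝ) / l)) *
          ∏ l ∈ B, (1 - (1 : ℝ) / l)) := by gcongr
    _ = _ := by rw [h4]

end

end Pool.Agent.DLG
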