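import Mathlib
import Pool.Agent.DLG.Gr
import Pool.Agent.DLG.Pairs

set_option autoImplicit false

/-!
The choice of the classes, and the number of the surviving pairs.
-/

namespace Pool.Agent.DLG

open Finset Filter BlockSieve Pool.Agent.UNI

noncomputable section

/-- The quotient `k / h` modulo `l`. -/
def quo (s : ℤ × ℕ) (l : ℕ) : ℕ := (((s.2 : ℕ) : ZMod l) * ((s.1 : ℤ) : ZMod l)⁻¹).val

lemma quo_range {s : ℤ × ℕ} {l : ℕ} (hl : l.Prime) (h1 : ¬ (l : ℤ) ∣ s.1) (h2 : ¬ l ∣ s.2) :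
    1 ≤ quo s l ∧ quo s l < l := by
  haveI : Fact l.Prime := ⟨hl⟩
  have ha : ((s.1 : ℤ) : ZMod l) ≠ 0 := fun h => h1 ((ZMod.intCast_zmod_eq_zero_iff_dvd _ l).1 h)
  have hb : ((s.2 : ℕ) : ZMod l) ≠ 0 := fun h => h2 ((ZMod.natCast_eq_zero_iff _ l).1 h)
  constructor
  · rw [Nat.one_le_iff_ne_zero]
    intro h
    rw [quo, ZMod.val_eq_zero] at h
    exact mul_ne_zero hb (inv_ne_zero ha) h
  · exact ZMod.val_lt _

lemma quo_dvd {s : ℤ × ℕ} {l : ℕ} (hl : l.Prime) (h1 : ¬ (l : ℤ) ∣ s.1) :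
    (l : ℤ) ∣ (s.2 : ℤ) - s.1 * (quo s l : ℤ) := by
  haveI : Fact l.Prime := ⟨hl⟩
  have ha : ((s.1 : ℤ) : ZMod l) ≠ 0 := fun h => h1 ((ZMod.intCast_zmod_eq_zero_iff_dvd _ l).1 h)
  rw [← ZMod.intCast_zmod_eq_zero_iff_dvd]
  push_cast
  rw [quo, ZMod.natCast_zmod_val]
  field_simp
  ring

theorem surv_comb {H T w' z y : ℕ} (hH : 1 ≤ H) (hw' : 2 ≤ w') (hzy : z ≤ y)
    (hy : 2 ≤ y) {c₀ : ℝ} (hc : Real.log ((H * T : ℕ) : ℝ) ≤ c₀) :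
    ∃ c : ℕ → ℕ, (∀ l ∈ pr y, ¬ l ∣ c l) ∧
      ((((Icc (-(H : ℤ)) H) ×ˢ (Icc 1 T)).filter (fun s : ℤ × ℕ => s.1 ≠ 0 ∧
        ∀ l ∈ pr y, ¬ ((l : ℤ) ∣ (s.2 : ℤ) - s.1 * (c l : ℤ)))).card : ℝ) ≤
      (6 * H * (((Icc 1 (T + H)).filter
        (fun n => ∀ l ∈ pr y, (l ≤ w' ∨ z < l) → ¬ l ∣ n)).card : ℝ)) *
      (Real.exp (2 * c₀ / w') * ∏ l ∈ (pr z).filter (fun l => w' < l), (1 - (1 : ℝ) / l)) := by
  classical
  obtain ⟨Q, hQ⟩ : ∃ Q, Q = (pr z).filter (fun l => w' < l) := ⟨_, rfl⟩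
  have hQp : ∀ l ∈ Q, l.Prime ∧ w' < l := by
    intro l hl
    rw [hQ, mem_filter, mem_pr] at hl
    exact ⟨hl.1.1, hl.2⟩
  obtain ⟨av, hav⟩ : ∃ av : ℤ × ℕ → ℕ → Prop, av = fun (s : ℤ × ℕ) (l : ℕ) =>
      ¬ (l : ℤ) ∣ s.1 ∧ ¬ l ∣ s.2 := ⟨_, rfl⟩
  obtain ⟨S₁, hS₁⟩ : ∃ S₁, S₁ = ((Icc (-(H : ℤ)) H) ×ˢ (Icc 1 T)).filter (fun s : ℤ × ℕ =>
      s.1 ≠ 0 ∧ ∀ l ∈ pr y, (l ≤ w' ∨ z < l) → ¬ ((l : ℤ) ∣ (s.2 : ℤ) - s.1)) := ⟨_, rfl⟩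
  obtain ⟨c, hc1, hc2⟩ := greedyP Q (fun l hl => (hQp l hl).1) quo av
    (by
      intro s l hl h
      rw [hav] at h
      exact quo_range (hQp l hl).1 h.1 h.2) S₁
  refine ⟨fun l => if l ∈ Q then c l else 1, ?_, ?_⟩
  · intro l hl
    have hlp := (mem_pr.1 hl).1
    dsimp only
    by_cases h : l ∈ Q
    · rw [if_pos h]
      intro hd
      have h1 := hc1 l h
      have h2 := Nat.le_of_dvd (by omega) hd
      omega
    · rw [if_neg h]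
      intro hd
      exact hlp.one_lt.ne' (Nat.dvd_one.1 hd)
  have hsub : ((Icc (-(H : ℤ)) H) ×ˢ (Icc 1 T)).filter (fun s : ℤ × ℕ => s.1 ≠ 0 ∧
        ∀ l ∈ pr y, ¬ ((l : ℤ) ∣ (s.2 : ℤ) - s.1 * ((if l ∈ Q then c l else 1 : ℕ) : ℤ))) ⊆
      S₁.filter (fun s => ∀ l ∈ Q, ¬ (av s l ∧ quo s l = c l)) := by
    intro s hs
    rw [mem_filter] at hs
    obtain ⟨h1, h2, h3⟩ := hs
    rw [mem_filter, hS₁, mem_filter]
    refine ⟨⟨h1, h2, ?_⟩, ?_⟩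
    · intro l hl hlw hd
      have hlQ : l ∉ Q := by
        intro hlQ
        have h4 := (hQp l hlQ).2
        rw [hQ, mem_filter, mem_pr] at hlQ
        omega
      have h4 := h3 l hl
      rw [if_neg hlQ, Nat.cast_one, mul_one] at h4
      exact h4 hd
    · rintro l hlQ ⟨h4, h5⟩
      have hly : l ∈ pr y := by
        have h6 := hlQ
        rw [hQ, mem_filter, mem_pr] at h6
        exact mem_pr.2 ⟨h6.1.1, by omega⟩
      have h6 := h3 l hly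
      rw [if_pos hlQ, ← h5] at h6
      rw [hav] at h4
      exact h6 (quo_dvd (hQp l hlQ).1 h4.1)
  have hprod0 : 0 ≤ ∏ l ∈ Q, (1 - (1 : ℝ) / l) := by
    apply Finset.prod_nonneg
    intro l hl
    have h1 : (2 : ℝ) ≤ l := by exact_mod_cast (hQp l hl).1.two_le
    rw [sub_nonneg, div_le_one (by linarith)]
    linarith
  have hterm : ∀ s ∈ S₁, ∏ l ∈ Q.filter (fun l => av s l), (1 - 1 / ((l : ℝ) - 1)) ≤
      Real.exp (2 * c₀ / w') * ∏ l ∈ Q, (1 - (1 : ℝ) / l) := by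
    intro s hs
    rw [hS₁, mem_filter, mem_product, mem_Icc, mem_Icc] at hs
    obtain ⟨⟨⟨a1, a2⟩, a3, a4⟩, a5, -⟩ := hs
    have ha : 1 ≤ s.1.natAbs * s.2 := Nat.mul_pos (Int.natAbs_pos.2 a5) a3
    refine prod_av_le hw' hQp ha (fun l => av s l) ?_ ?_
    · intro l hl h
      rw [hav] at h
      by_cases h1 : (l : ℤ) ∣ s.1
      · exact (Int.natCast_dvd.1 h1).mul_right _
      · have h2 : l ∣ s.2 := by
          by_contra hcon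
          exact h ⟨h1, hcon⟩
        exact h2.mul_left _
    · refine le_trans ?_ hc
      apply Real.log_le_log
      · exact_mod_cast ha
      · have h1 : s.1.natAbs * s.2 ≤ H * T := Nat.mul_le_mul (by omega) a4
        exact_mod_cast h1
  have h1 : ((S₁.filter (fun s => ∀ l ∈ Q, ¬ (av s l ∧ quo s l = c l))).card : ℝ) ≤
      (S₁.card : ℝ) * (Real.exp (2 * c₀ / w') * ∏ l ∈ Q, (1 - (1 : ℝ) / l)) := by
    refine hc2.trans ?_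
    refine (Finset.sum_le_sum hterm).trans (le_of_eq ?_)
    rw [Finset.sum_const, nsmul_eq_mul]
  have h2 : (S₁.card : ℝ) ≤ 6 * H * (((Icc 1 (T + H)).filter
        (fun n => ∀ l ∈ pr y, (l ≤ w' ∨ z < l) → ¬ l ∣ n)).card : ℝ) := by
    refine le_trans ?_ (pairs_card H T w' z y hH hw' hy)
    have h3 : S₁ ⊆ ((Icc (-(H : ℤ)) H) ×ˢ (Icc 1 T)).filter (fun s : ℤ × ℕ =>
        ∀ l ∈ pr y, (l ≤ w' ∨ z < l) → ¬ ((l : ℤ) ∣ (s.2 : ℤ) - s.1)) := by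
      intro s hs
      rw [hS₁, mem_filter] at hs
      rw [mem_filter]
      exact ⟨hs.1, hs.2.2⟩
    exact_mod_cast Finset.card_le_card h3
  have h3 : ((((Icc (-(H : ℤ)) H) ×ˢ (Icc 1 T)).filter (fun s : ℤ × ℕ => s.1 ≠ 0 ∧
        ∀ l ∈ pr y, ¬ ((l : ℤ) ∣ (s.2 : ℤ) - s.1 * ((if l ∈ Q then c l else 1 : ℕ) : ℤ)))).card : ℝ)
      ≤ ((S₁.filter (fun s => ∀ l ∈ Q, ¬ (av s l ∧ quo s l = c l))).card : ℝ) := by
    exact_mod_cast Finset.card_le_card hsub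
  refine h3.trans (h1.trans ?_)
  rw [← hQ]
  exact mul_le_mul_of_nonneg_right h2 (by positivity)

end

end Pool.Agent.DLG
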