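import Mathlib
import Pool.Agent.UNI.B3
import Pool.Agent.UNI.B4

set_option autoImplicit false

/-!
Integers without tiny and middle prime factors.
-/

namespace Pool.Agent.DLG

open Finset Filter BlockSieve Pool.Agent.UNI

noncomputable section

/-- Mertens product, upper bound. -/
lemma prod_inv_le {n : ℕ} (hn : 2 ≤ n) :
    ∏ p ∈ pr n, (1 - (1 : ℝ) / p)⁻¹ ≤ Real.exp 5 * Real.log n := by
  have hlog : 0 < Real.log n := Real.log_pos (by exact_mod_cast (by omega : 1 < n))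
  have h1 := prod_one_sub_ge hn (pr n) (Finset.Subset.refl _)
  have h2 : 0 < ∏ p ∈ pr n, (1 - (1 : ℝ) / p) := Finset.prod_pos fun p hp => one_sub_pos hp
  rw [Finset.prod_inv_distrib]
  rw [inv_le_comm₀ h2 (by positivity)]
  refine le_trans (le_of_eq ?_) h1
  rw [mul_inv, Real.exp_neg]
  rfl

lemma inj_rough {w : ℕ} {d e d' e' : ℕ} (hd : 1 ≤ d) (hdw : d ≤ w) (hd' : 1 ≤ d') (hdw' : d' ≤ w)
    (he : ∀ p ∈ pr w, ¬ p ∣ e) (he' : ∀ p ∈ pr w, ¬ p ∣ e')
    (h : d * e = d' * e') : d = d' := by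
  have hcop : ∀ a b : ℕ, 1 ≤ a → a ≤ w → (∀ p ∈ pr w, ¬ p ∣ b) → Nat.Coprime a b := by
    intro a b ha haw hb
    rw [Nat.coprime_iff_gcd_eq_one]
    by_contra hcon
    obtain ⟨p, hp, hpd⟩ := Nat.exists_prime_and_dvd hcon
    have h1 : p ∣ a := hpd.trans (Nat.gcd_dvd_left _ _)
    have h2 : p ∣ b := hpd.trans (Nat.gcd_dvd_right _ _)
    exact hb p (mem_pr.2 ⟨hp, (Nat.le_of_dvd (by omega) h1).trans haw⟩) h2
  apply Nat.dvd_antisymm
  · have h1 : d ∣ d' * e' := h ▸ Dvd.intro _ rfl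
    exact (hcop d e' hd hdw he').dvd_of_dvd_mul_right h1
  · have h1 : d' ∣ d * e := h.symm ▸ Dvd.intro _ rfl
    exact (hcop d' e hd' hdw' he).dvd_of_dvd_mul_right h1

/-- Reciprocal sum over the `w`-rough integers up to `w ^ 3`. -/
lemma sum_rough_inv_le {w N : ℕ} (hw : 2 ≤ w) (hN : N ≤ w ^ 3) :
    ∑ e ∈ (Icc 1 N).filter (fun e => ∀ p ∈ pr w, ¬ p ∣ e), (1 : ℝ) / e ≤ 3 * Real.exp 5 := by
  classical
  obtain ⟨E, hE⟩ : ∃ E, E = (Icc 1 N).filter (fun e => ∀ p ∈ pr w, ¬ p ∣ e) := ⟨_, rfl⟩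
  rw [← hE]
  have hEm : ∀ e ∈ E, 1 ≤ e ∧ e ≤ N ∧ ∀ p ∈ pr w, ¬ p ∣ e := by
    intro e he
    rw [hE, mem_filter, mem_Icc] at he
    exact ⟨he.1.1, he.1.2, he.2⟩
  have hlogw : 0 < Real.log w := Real.log_pos (by exact_mod_cast (by omega : 1 < w))
  have hw3 : 2 ≤ w ^ 3 := hw.trans (Nat.le_self_pow (by norm_num) w)
  have hinj : Set.InjOn (fun x : ℕ × ℕ => x.1 * x.2) (((Icc 1 w) ×ˢ E : Finset (ℕ × ℕ)) : Set (ℕ × ℕ)) := by
    rintro ⟨d, e⟩ h1 ⟨d', e'⟩ h2 h3
    rw [Finset.mem_coe, mem_product, mem_Icc] at h1 h2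
    dsimp only at h1 h2 h3
    obtain ⟨f1, f2, f3⟩ := hEm e h1.2
    obtain ⟨f1', f2', f3'⟩ := hEm e' h2.2
    have h4 := inj_rough h1.1.1 h1.1.2 h2.1.1 h2.1.2 f3 f3' h3
    subst h4
    have h5 : e = e' := Nat.eq_of_mul_eq_mul_left (by omega) h3
    rw [h5]
  have h1 := smooth_sum_le (s := 1) one_pos (w ^ 3)
    (((Icc 1 w) ×ˢ E).image (fun x : ℕ × ℕ => x.1 * x.2)) (by
      intro n hn
      rw [mem_image] at hn
      obtain ⟨⟨d, e⟩, h2, rfl⟩ := hn
      rw [mem_product, mem_Icc] at h2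
      dsimp only at h2 ⊢
      obtain ⟨f1, f2, f3⟩ := hEm e h2.2
      rw [Nat.mem_smoothNumbers']
      intro p hp hd
      rcases (hp.dvd_mul).1 hd with h3 | h3
      · have h4 := Nat.le_of_dvd (by omega) h3
        have h5 : w ≤ w ^ 3 := Nat.le_self_pow (by norm_num) w
        omega
      · have h4 := Nat.le_of_dvd (by omega) h3
        omega)
  rw [Finset.sum_image hinj, Finset.sum_product] at h1
  have e1 : ∀ n : ℕ, (n : ℝ) ^ (-(1 : ℝ)) = 1 / (n : ℝ) := by
    intro n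
    rw [Real.rpow_neg_one, one_div]
  simp only [e1] at h1
  have h2 : ∑ x ∈ Icc 1 w, ∑ y ∈ E, 1 / ((x * y : ℕ) : ℝ) =
      (∑ x ∈ Icc 1 w, (1 : ℝ) / x) * ∑ e ∈ E, (1 : ℝ) / e := by
    rw [Finset.sum_mul_sum]
    apply Finset.sum_congr rfl
    intro x _
    apply Finset.sum_congr rfl
    intro y _
    push_cast
    rw [div_mul_div_comm, one_mul]
  rw [h2] at h1
  have h3 : Real.log w ≤ ∑ x ∈ Icc 1 w, (1 : ℝ) / x := by
    have h4 := log_add_one_le_harmonic w
    rw [harmonic_eq_sum_Icc] at h4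
    push_cast at h4
    simp only [one_div]
    refine le_trans ?_ h4
    apply Real.log_le_log
    · exact_mod_cast (by omega : 0 < w)
    · linarith
  have h4 : ∏ p ∈ pr (w ^ 3), (1 - (1 : ℝ) / p)⁻¹ ≤ Real.exp 5 * (3 * Real.log w) := by
    refine (prod_inv_le hw3).trans (le_of_eq ?_)
    push_cast
    rw [Real.log_pow]
    norm_num
  have h5 : 0 ≤ ∑ e ∈ E, (1 : ℝ) / e := Finset.sum_nonneg fun _ _ => by positivity
  have h6 : Real.log w * ∑ e ∈ E, (1 : ℝ) / e ≤ Real.log w * (3 * Real.exp 5) := by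
    calc Real.log w * ∑ e ∈ E, (1 : ℝ) / e ≤
          (∑ x ∈ Icc 1 w, (1 : ℝ) / x) * ∑ e ∈ E, (1 : ℝ) / e :=
          mul_le_mul_of_nonneg_right h3 h5
      _ ≤ ∏ p ∈ pr (w ^ 3), (1 - (1 : ℝ) / p)⁻¹ := h1
      _ ≤ Real.exp 5 * (3 * Real.log w) := h4
      _ = _ := by ring
  exact le_of_mul_le_mul_left h6 hlogw

/-- The integers up to `N` without prime factors up to `w` and between `z` and `y`. -/
lemma rough_card_le {w z y N : ℕ} (hw : 2 ≤ w) (hwy : w ≤ y) (hN : N / y ≤ w ^ 3) :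
    (((Icc 1 N).filter (fun n => ∀ l ∈ pr y, (l ≤ w ∨ z < l) → ¬ l ∣ n)).card : ℝ) ≤
      ((sm z N).card : ℝ) + 3 * Real.exp 5 * (Real.log 4 * N / Real.log y) := by
  classical
  obtain ⟨E, hE⟩ : ∃ E, E = (Icc 1 (N / y)).filter (fun e => ∀ p ∈ pr w, ¬ p ∣ e) := ⟨_, rfl⟩
  have hy2 : 2 ≤ y := hw.trans hwy
  have hlogy : 0 < Real.log y := Real.log_pos (by exact_mod_cast (by omega : 1 < y))
  have hsub : (Icc 1 N).filter (fun n => ∀ l ∈ pr y, (l ≤ w ∨ z < l) → ¬ l ∣ n) ⊆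
      sm z N ∪ E.biUnion (fun e => ((pr (N / e)).filter (fun p => y < p)).image (fun p => p * e)) := by
    intro n hn
    rw [mem_filter, mem_Icc] at hn
    obtain ⟨⟨hn1, hn2⟩, hn3⟩ := hn
    rw [mem_union]
    by_cases hsm : n.primeFactors ⊆ pr z
    · exact Or.inl (mem_sm.2 ⟨hn1, hn2, hsm⟩)
    · right
      rw [Finset.not_subset] at hsm
      obtain ⟨p, hp1, hp2⟩ := hsm
      rw [Nat.mem_primeFactors] at hp1
      obtain ⟨hp, hpn, hn0⟩ := hp1
      have hzp : z < p := by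
        by_contra hcon
        exact hp2 (mem_pr.2 ⟨hp, by omega⟩)
      have hyp : y < p := by
        by_contra hcon
        exact hn3 p (mem_pr.2 ⟨hp, by omega⟩) (Or.inr hzp) hpn
      obtain ⟨e, he⟩ := hpn
      have he0 : 1 ≤ e := by
        rcases Nat.eq_zero_or_pos e with h | h
        · rw [h, mul_zero] at he
          omega
        · exact h
      rw [mem_biUnion]
      refine ⟨e, ?_, ?_⟩
      · rw [hE, mem_filter, mem_Icc]
        refine ⟨⟨he0, ?_⟩, ?_⟩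
        · rw [Nat.le_div_iff_mul_le (by omega)]
          calc e * y ≤ e * p := Nat.mul_le_mul_left _ hyp.le
            _ = n := by rw [he]; ring
            _ ≤ N := hn2
        · intro l hl hle
          have hl' := mem_pr.1 hl
          refine hn3 l (mem_pr.2 ⟨hl'.1, hl'.2.trans hwy⟩) (Or.inl hl'.2) ?_
          rw [he]
          exact hle.mul_left p
      · rw [mem_image]
        refine ⟨p, ?_, he.symm⟩
        rw [mem_filter, mem_pr]
        refine ⟨⟨hp, ?_⟩, hyp⟩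
        rw [Nat.le_div_iff_mul_le (by omega)]
        rw [← he]
        exact hn2
  have h1 : (((Icc 1 N).filter (fun n => ∀ l ∈ pr y, (l ≤ w ∨ z < l) → ¬ l ∣ n)).card : ℝ) ≤
      ((sm z N).card : ℝ) + ∑ e ∈ E, (((pr (N / e)).filter (fun p => y < p)).card : ℝ) := by
    have h2 := Finset.card_le_card hsub
    have h3 : (sm z N ∪ E.biUnion (fun e => ((pr (N / e)).filter (fun p => y < p)).image
        (fun p => p * e))).card ≤ (sm z N).card +
          ∑ e ∈ E, ((pr (N / e)).filter (fun p => y < p)).card := by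
      refine (Finset.card_union_le _ _).trans (Nat.add_le_add_left ?_ _)
      refine Finset.card_biUnion_le.trans ?_
      apply Finset.sum_le_sum
      intro e _
      exact Finset.card_image_le
    exact_mod_cast h2.trans h3
  refine h1.trans ?_
  gcongr
  calc ∑ e ∈ E, (((pr (N / e)).filter (fun p => y < p)).card : ℝ) ≤
        ∑ e ∈ E, (Real.log 4 * N / Real.log y) * (1 / (e : ℝ)) := by
        apply Finset.sum_le_sum
        intro e he
        have h2 := card_primes_le (y := y) (n := N / e) hy2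
        refine h2.trans ?_
        have h3 : ((N / e : ℕ) : ℝ) ≤ N / e := Nat.cast_div_le
        have hlog4 : 0 < Real.log 4 := Real.log_pos (by norm_num)
        calc Real.log 4 * ((N / e : ℕ) : ℝ) / Real.log y ≤
              Real.log 4 * ((N : ℝ) / e) / Real.log y := by gcongr
          _ = _ := by ring
    _ = (Real.log 4 * N / Real.log y) * ∑ e ∈ E, 1 / (e : ℝ) := by rw [Finset.mul_sum]
    _ ≤ (Real.log 4 * N / Real.log y) * (3 * Real.exp 5) := by
        have hlog4 : 0 < Real.log 4 := Real.log_pos (by norm_num)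
        apply mul_le_mul_of_nonneg_left _ (by positivity)
        rw [hE]
        exact sum_rough_inv_le hw hN
    _ = _ := by ring

end

end Pool.Agent.DLG
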