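import Mathlib
import Pool.Agent.DLG.Gr
import Pool.Agent.DLG.Rough
import Pool.Agent.DLG.Pairs
import Pool.Agent.FXC.J0B

set_option autoImplicit false

/-!
Covering of the sites `(h, k)`, `0 < |h| ≤ H`, `k ≤ T`, by the primes up to `y`.
-/

namespace Pool.Agent.DLG

open Finset Filter BlockSieve Pool.Agent.UNI

noncomputable section

lemma ev_sur (δ : ℝ) : ∀ᶠ L : ℝ in atTop,
    ((32 ≤ Real.log (Real.log (Real.log L)) ∧ 1024 * (Real.log (Real.log L)) ^ 2 ≤ Real.log L ∧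
      4 * (8 + 5 / 2 * zth) ≤ Real.log (Real.log L) ∧
      8 * (Real.log (Real.log (Real.log (Real.log L))) + 2) ≤ Real.log (Real.log (Real.log L))) ∧
    (3136 ≤ Real.log L ∧ 16 * (Real.log (Real.log L)) ≤ Real.sqrt (Real.log L) ∧
      Real.log (Real.log L) * (Real.log (Real.log L) + 1) ≤ Real.sqrt (Real.log L) ∧
      32 ≤ Real.log (Real.log L) ∧ -Real.log (δ / 2) ≤ Real.log (Real.log L))) ∧
    1 / δ * (Real.log L) ^ 2 ≤ L ∧ 2 / δ ≤ L := by
  have h1 := Real.tendsto_log_atTop.eventually (ev_conditionsC 8 1 1 one_pos)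
  have h2 := Real.tendsto_log_atTop.eventually (Pool.Agent.FXC.j0b_ev (δ / 2))
  have h3 := ev_real (1 / δ) 2
  filter_upwards [h1, h2, h3, eventually_ge_atTop (2 / δ)] with L g1 g2 g3 g4
  obtain ⟨⟨a1, a2, a3, a4⟩, a5, a6, a7⟩ := g1
  refine ⟨⟨⟨a1, a2, ?_, ?_⟩, g2⟩, g3, g4⟩
  · simpa using a6
  · simpa using a7

/-- The smooth part. -/
lemma smooth_bd {z N : ℕ} {w v q Λ u C' : ℝ} (hC' : C' = 4 + 5 / 2 * zth) (hw : 3136 ≤ w)
    (hv : v = Real.log w) (hq : q = Real.log v) (hΛ : Λ = (1 - 1 / 2) * (w * q / v))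
    (hu : u = w / Λ) (hz : z = ⌊Real.exp Λ⌋₊)
    (h1 : 32 ≤ q) (h3 : 1024 * v ^ 2 ≤ w) (h4 : 4 * (8 + 5 / 2 * zth) ≤ v)
    (h5 : 8 * (Real.log q + 2) ≤ q) (g2 : 16 * v ≤ Real.sqrt w)
    (g3 : v * (v + 1) ≤ Real.sqrt w) (hlogN : w - v ≤ Real.log N) :
    ((sm z N).card : ℝ) ≤ (1 + 32 * Real.exp (C' + 1)) * (N / w) := by
  obtain ⟨n1, n2, n3, n4, n5, n6, n7, n8, n9⟩ := num_factsC (κ := 1) one_pos le_rfl hv hq
    (by rw [hΛ]) hu h1 h3 (by simpa using h4) (by simpa using h5)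
  have hzth : 0 ≤ zth := by
    unfold zth
    apply tsum_nonneg
    intro i
    positivity
  have hw0 : 0 < w := by linarith
  have hq0 : 0 < q := by linarith
  have hv0 : 0 < v := n6
  have hΛ0 : 0 < Λ := by linarith
  have hu0 : 0 < u := by linarith
  obtain ⟨hz3, hlogz1, hlogz2⟩ := z_facts (by linarith) hz
  have hssw : Real.sqrt w * Real.sqrt w = w := Real.mul_self_sqrt hw0.le
  have hsw : 0 < Real.sqrt w := Real.sqrt_pos.2 hw0
  have hsΛ : Real.sqrt w ≤ Λ := by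
    refine le_trans ?_ n9
    rw [le_div_iff₀ (by positivity)]
    calc Real.sqrt w * (2 * v) ≤ Real.sqrt w * (Real.sqrt w * q) := by
          apply mul_le_mul_of_nonneg_left _ hsw.le
          calc 2 * v ≤ Real.sqrt w * 1 := by linarith
            _ ≤ Real.sqrt w * q := by gcongr; linarith
      _ = w * q := by rw [← mul_assoc, hssw]
  have hvΛ : v / Λ ≤ 1 := by
    rw [div_le_one hΛ0]
    linarith
  have hvΛ0 : 0 < v / Λ := by positivity
  have hlogu2 : 2 ≤ Real.log u := by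
    by_contra hcon
    push Not at hcon
    have h6 : u * Real.log u ≤ u * 2 := by gcongr
    linarith
  have hu3 : 3 ≤ u := by
    have := Real.log_le_sub_one_of_pos hu0
    linarith
  obtain ⟨u', hu'⟩ : ∃ u' : ℝ, u' = (w - v) / Λ := ⟨_, rfl⟩
  have hu'Λ : u' * Λ = w - v := by rw [hu']; field_simp
  have huu' : u' = u - v / Λ := by rw [hu', hu]; ring
  have hu'1 : 1 ≤ u' := by rw [huu']; linarith
  have hu'u : u' ≤ u := by rw [huu']; linarith
  have hu'0 : 0 < u' := by linarith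
  have hlogu' : Real.log u' ≤ Λ / 4 := (Real.log_le_log hu'0 hu'u).trans n3
  have hloguv : Real.log u ≤ v := by
    rw [hv]
    apply Real.log_le_log hu0
    rw [hu]
    exact div_le_self hw0.le (by linarith)
  have hzr : Real.exp Λ ≤ 2 * z := by
    have h6 : Real.exp Λ < z + 1 := by
      rw [hz]
      exact Nat.lt_floor_add_one _
    have h7 : (2 : ℝ) ≤ z := by exact_mod_cast hz3
    linarith
  have hsm := smooth_card_le (D := w) (u := u') (T := N) hz3 hlogz1 hzr n2 hu'1 hlogu'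
    (by rw [hu'Λ]; exact hlogN) (by linarith) (by
      rw [hu'Λ, ← hv]
      nlinarith)
  have hexp := Pool.Agent.FXC.j0b_exp (C' := C') hu0 hu'0 huu' hv0 hΛ0 hloguv g3 hsΛ
  rw [← hC'] at hsm
  have h6 : Real.exp (2 * u' + C' - u' * Real.log u') ≤ Real.exp (C' + 1) * (1 / w) := by
    have h7 : Real.exp (-v) = 1 / w := by
      rw [Real.exp_neg, hv, Real.exp_log hw0, one_div]
    rw [← h7, ← Real.exp_add]
    apply Real.exp_le_exp.2
    linarith
  calc ((sm z N).card : ℝ) ≤ N / w +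
        32 * (N * Real.exp (2 * u' + C' - u' * Real.log u')) := hsm
    _ ≤ N / w + 32 * (N * (Real.exp (C' + 1) * (1 / w))) := by gcongr
    _ = _ := by ring

/-- The product over the primes between `w'` and `z`. -/
lemma prod_mid_le {w' z : ℕ} {v Λ : ℝ} (hw' : 2 ≤ w') (hwz : w' ≤ z) (hv : Real.log w' ≤ v)
    (hΛ0 : 0 < Λ) (hΛ : Λ ≤ Real.log ((z : ℝ) + 1)) :
    ∏ l ∈ (pr z).filter (fun l => w' < l), (1 - (1 : ℝ) / l) ≤ Real.exp 5 * v / Λ := by
  classical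
  have h1 := log_le_prod z
  rw [Finset.prod_inv_distrib] at h1
  have h2 : 0 < ∏ p ∈ pr z, (1 - (1 : ℝ) / p) := Finset.prod_pos fun p hp => one_sub_pos hp
  have h3 : ∏ p ∈ pr z, (1 - (1 : ℝ) / p) ≤ 1 / Λ := by
    rw [le_div_iff₀ hΛ0]
    calc (∏ p ∈ pr z, (1 - (1 : ℝ) / p)) * Λ ≤
          (∏ p ∈ pr z, (1 - (1 : ℝ) / p)) * (∏ p ∈ pr z, (1 - (1 : ℝ) / p))⁻¹ := by
          gcongr
          exact hΛ.trans h1
      _ = 1 := mul_inv_cancel₀ h2.ne'
  have h4 : (pr z).filter (fun l => ¬ w' < l) = pr w' := by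
    ext l
    rw [mem_filter, mem_pr, mem_pr]
    constructor
    · rintro ⟨⟨a, _⟩, b⟩
      exact ⟨a, by omega⟩
    · rintro ⟨a, b⟩
      exact ⟨⟨a, by omega⟩, by omega⟩
  have h5 : (∏ l ∈ (pr z).filter (fun l => w' < l), (1 - (1 : ℝ) / l)) *
      ∏ l ∈ pr w', (1 - (1 : ℝ) / l) = ∏ l ∈ pr z, (1 - (1 : ℝ) / l) := by
    rw [← h4]
    exact Finset.prod_filter_mul_prod_filter_not (pr z) (fun l => w' < l) _
  have h6 := prod_inv_le hw'
  rw [Finset.prod_inv_distrib] at h6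
  have h7 : 0 < ∏ p ∈ pr w', (1 - (1 : ℝ) / p) := Finset.prod_pos fun p hp => one_sub_pos hp
  have h8 : 0 ≤ ∏ l ∈ pr z, (1 - (1 : ℝ) / l) := h2.le
  calc ∏ l ∈ (pr z).filter (fun l => w' < l), (1 - (1 : ℝ) / l) =
        (∏ l ∈ pr z, (1 - (1 : ℝ) / l)) * (∏ l ∈ pr w', (1 - (1 : ℝ) / l))⁻¹ := by
        rw [← h5]
        field_simp
    _ ≤ (1 / Λ) * (Real.exp 5 * v) := by
        apply mul_le_mul h3 _ (by positivity) (by positivity)
        refine h6.trans ?_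
        gcongr
    _ = _ := by ring

end

end Pool.Agent.DLG
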