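import Mathlib
import Pool.Agent.DLG.Sur
import Pool.Agent.DLG.Comb

set_option autoImplicit false

/-!
The number of the surviving pairs.
-/

namespace Pool.Agent.DLG

open Finset Filter BlockSieve Pool.Agent.UNI

noncomputable section

/-- The integers without tiny and middle prime factors. -/
lemma rough_bd {w' z y N : ℕ} {w v q Λ u C' : ℝ} (hC' : C' = 4 + 5 / 2 * zth) (hw : 3136 ≤ w)
    (hv : v = Real.log w) (hq : q = Real.log v) (hΛ : Λ = (1 - 1 / 2) * (w * q / v))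
    (hu : u = w / Λ) (hz : z = ⌊Real.exp Λ⌋₊)
    (h1 : 32 ≤ q) (h3 : 1024 * v ^ 2 ≤ w) (h4 : 4 * (8 + 5 / 2 * zth) ≤ v)
    (h5 : 8 * (Real.log q + 2) ≤ q) (g2 : 16 * v ≤ Real.sqrt w)
    (g3 : v * (v + 1) ≤ Real.sqrt w) (hlogN : w - v ≤ Real.log N)
    (hw' : 2 ≤ w') (hwy : w' ≤ y) (hN : N / y ≤ w' ^ 3) (hlogy : w / 2 ≤ Real.log y) :
    (((Icc 1 N).filter (fun n => ∀ l ∈ pr y, (l ≤ w' ∨ z < l) → ¬ l ∣ n)).card : ℝ) ≤
      (1 + 32 * Real.exp (C' + 1) + 9 * Real.exp 5) * (N / w) := by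
  have h6 := rough_card_le (z := z) hw' hwy hN
  have h7 := smooth_bd hC' hw hv hq hΛ hu hz h1 h3 h4 h5 g2 g3 hlogN
  have hw0 : 0 < w := by linarith
  have hlogy0 : 0 < Real.log y := by linarith
  have h8 : 3 * Real.exp 5 * (Real.log 4 * N / Real.log y) ≤ 9 * Real.exp 5 * (N / w) := by
    have h9 := log_four_le
    calc 3 * Real.exp 5 * (Real.log 4 * N / Real.log y) ≤
          3 * Real.exp 5 * (1387 / 1000 * N / (w / 2)) := by gcongr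
      _ = (8322 / 1000 * Real.exp 5) * (N / w) := by
          field_simp
          ring
      _ ≤ 9 * Real.exp 5 * (N / w) := by
          gcongr
          norm_num
  calc (((Icc 1 N).filter (fun n => ∀ l ∈ pr y, (l ≤ w' ∨ z < l) → ¬ l ∣ n)).card : ℝ) ≤
        ((sm z N).card : ℝ) + 3 * Real.exp 5 * (Real.log 4 * N / Real.log y) := h6
    _ ≤ (1 + 32 * Real.exp (C' + 1)) * (N / w) + 9 * Real.exp 5 * (N / w) := add_le_add h7 h8
    _ = _ := by ring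

/-- Sizes of the parameters. -/
lemma sizes {δ L w v q R : ℝ} {H T : ℕ} (hδ : 0 < δ) (hδ1 : δ ≤ 1) (hL : 0 < L) (hw : 3136 ≤ w)
    (hv : 32 ≤ v) (hq : 32 ≤ q) (hqv : q ≤ v) (hR : R = L * w ^ 2 * q / v ^ 2) (hH : 1 ≤ H)
    (hHR : (H : ℝ) * L ≤ R) (hT : T = ⌊δ * R / H⌋₊) (hwL : 1 / δ * w ^ 2 ≤ L) :
    (T : ℝ) ≤ L * w ^ 2 ∧ (H : ℝ) ≤ w ^ 2 ∧ (H : ℝ) * ((T + H : ℕ) : ℝ) ≤ 2 * (δ * R) ∧
      δ * L ≤ ((T + H : ℕ) : ℝ) ∧ ((T + H : ℕ) : ℝ) ≤ 2 * (L * w ^ 2) := by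
  have hv0 : 0 < v := by linarith
  have hq0 : 0 < q := by linarith
  have hw0 : 0 < w := by linarith
  have hH1 : (1 : ℝ) ≤ H := by exact_mod_cast hH
  have hH0 : (0 : ℝ) < H := by linarith
  have hqv2 : q / v ^ 2 ≤ 1 := by
    rw [div_le_one (by positivity)]
    calc q ≤ v := hqv
      _ = v * 1 := (mul_one v).symm
      _ ≤ v * v := by gcongr; linarith
      _ = v ^ 2 := by ring
  have hR' : R = L * (w ^ 2 * (q / v ^ 2)) := by rw [hR]; ring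
  have hR0 : 0 < R := by rw [hR]; positivity
  have hHw : (H : ℝ) ≤ w ^ 2 := by
    have h1 : L * (H : ℝ) ≤ L * (w ^ 2 * (q / v ^ 2)) := by rw [← hR']; linarith
    have h2 := le_of_mul_le_mul_left h1 hL
    refine h2.trans ?_
    calc w ^ 2 * (q / v ^ 2) ≤ w ^ 2 * 1 := by gcongr
      _ = w ^ 2 := mul_one _
  have hRw : R ≤ L * w ^ 2 := by
    rw [hR']
    gcongr
    calc w ^ 2 * (q / v ^ 2) ≤ w ^ 2 * 1 := by gcongr
      _ = w ^ 2 := mul_one _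
  have hTle : (T : ℝ) ≤ δ * R / H := by rw [hT]; exact Nat.floor_le (by positivity)
  have hTlt : δ * R / H < T + 1 := by rw [hT]; exact Nat.lt_floor_add_one _
  have hTR : (T : ℝ) ≤ R := by
    refine hTle.trans ?_
    rw [div_le_iff₀ hH0]
    calc δ * R ≤ 1 * R := by gcongr
      _ = R * 1 := by ring
      _ ≤ R * H := by gcongr
  have hHT : (H : ℝ) * T ≤ δ * R := by
    rw [le_div_iff₀ hH0] at hTle
    linarith
  have hwδ : w ^ 2 ≤ δ * L := by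
    rw [one_div, inv_mul_le_iff₀ hδ] at hwL
    exact hwL
  have hHH : (H : ℝ) * H ≤ δ * R := by
    calc (H : ℝ) * H ≤ (δ * L) * H := by
          gcongr
          exact hHw.trans hwδ
      _ = δ * (H * L) := by ring
      _ ≤ δ * R := by gcongr
  have hLR : L ≤ R / H := by
    rw [le_div_iff₀ hH0]
    linarith
  have hδL : δ * L ≤ δ * R / H := by
    rw [mul_div_assoc]
    gcongr
  refine ⟨hTR.trans hRw, hHw, ?_, ?_, ?_⟩
  · push_cast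
    linarith
  · push_cast
    linarith
  · push_cast
    have h1 : w ^ 2 ≤ L * w ^ 2 := by
      have h2 : 1 ≤ L := by
        have h3 : (1 : ℝ) ≤ w ^ 2 := by nlinarith
        have h4 : δ * L ≤ 1 * L := by gcongr
        linarith
      calc w ^ 2 = 1 * w ^ 2 := (one_mul _).symm
        _ ≤ L * w ^ 2 := by gcongr
    linarith

/-- The last computation. -/
lemma last_bd {K1 H N0 R δ L w v q Λ E1 E2 G P : ℝ} (hK1 : 0 ≤ K1) (hH : 0 ≤ H) (hw : 0 < w)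
    (hv : 0 < v) (hq : 0 < q) (hL : 0 < L) (hΛ : w * q / (2 * v) ≤ Λ)
    (hR : R = L * w ^ 2 * q / v ^ 2) (hδ : 0 ≤ δ)
    (hHN : H * N0 ≤ 2 * (δ * R)) (hG : G ≤ K1 * (N0 / w)) (hE1 : E1 ≤ Real.exp 8)
    (hE10 : 0 ≤ E1) (hP0 : 0 ≤ P) (hP : P ≤ Real.exp 5 * v / Λ) (hE2 : E2 = (6 * H * G) * (E1 * P)) :
    E2 ≤ 24 * K1 * Real.exp 13 * δ * L := by
  have hΛ0 : 0 < Λ := lt_of_lt_of_le (by positivity) hΛ
  have h1 : P ≤ Real.exp 5 * (2 * v ^ 2 / (w * q)) := by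
    refine hP.trans ?_
    rw [mul_div_assoc]
    apply mul_le_mul_of_nonneg_left _ (Real.exp_pos _).le
    rw [div_le_div_iff₀ hΛ0 (by positivity)]
    have h2 : w * q ≤ Λ * (2 * v) := by
      rw [div_le_iff₀ (by positivity)] at hΛ
      exact hΛ
    calc v * (w * q) ≤ v * (Λ * (2 * v)) := by gcongr
      _ = _ := by ring
  have h2 : E1 * P ≤ Real.exp 8 * (Real.exp 5 * (2 * v ^ 2 / (w * q))) := by gcongr
  have h3 : Real.exp 13 = Real.exp 8 * Real.exp 5 := by rw [← Real.exp_add]; norm_num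
  have h4 : 6 * H * G ≤ 6 * (K1 * (2 * (δ * R) / w)) := by
    calc 6 * H * G ≤ 6 * H * (K1 * (N0 / w)) := by gcongr
      _ = 6 * (K1 * ((H * N0) / w)) := by ring
      _ ≤ 6 * (K1 * (2 * (δ * R) / w)) := by gcongr
  have h0 : 0 ≤ E1 * P := mul_nonneg hE10 hP0
  have hR0 : 0 ≤ R := by rw [hR]; positivity
  have h5 : 0 ≤ 6 * (K1 * (2 * (δ * R) / w)) := by positivity
  have h6 : 24 * K1 * Real.exp 13 * δ * L =
      6 * (K1 * (2 * (δ * R) / w)) * (Real.exp 8 * (Real.exp 5 * (2 * v ^ 2 / (w * q)))) := by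
    rw [h3, hR]
    field_simp
    ring
  rw [h6, hE2]
  calc (6 * H * G) * (E1 * P) ≤ 6 * (K1 * (2 * (δ * R) / w)) * (E1 * P) :=
        mul_le_mul_of_nonneg_right h4 h0
    _ ≤ _ := mul_le_mul_of_nonneg_left h2 h5

/-- **The survivors.** -/
theorem survS : ∃ K : ℝ, 1 ≤ K ∧ ∀ δ : ℝ, 0 < δ → δ ≤ 1 → ∃ N₀ : ℕ, ∀ N : ℕ, N₀ ≤ N →
    200 ≤ Real.log N ∧
    ∀ H : ℕ, 1 ≤ H → ∀ R : ℝ, R = Real.log N * Real.log (Real.log N) ^ 2 *
      Real.log (Real.log (Real.log (Real.log N))) / (Real.log (Real.log (Real.log N))) ^ 2 →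
    (H : ℝ) * Real.log N ≤ R → ∀ T : ℕ, T = ⌊δ * R / H⌋₊ →
    (T : ℝ) ≤ Real.log N * Real.log (Real.log N) ^ 2 ∧ (H : ℝ) ≤ Real.log (Real.log N) ^ 2 ∧
    ∃ c : ℕ → ℕ, (∀ l ∈ pr (yM 8 N), ¬ l ∣ c l) ∧
      ((((Icc (-(H : ℤ)) H) ×ˢ (Icc 1 T)).filter (fun s : ℤ × ℕ => s.1 ≠ 0 ∧
        ∀ l ∈ pr (yM 8 N), ¬ ((l : ℤ) ∣ (s.2 : ℤ) - s.1 * (c l : ℤ)))).card : ℝ) ≤
      K * δ * Real.log N := by
  obtain ⟨C', hC'⟩ : ∃ C' : ℝ, C' = 4 + 5 / 2 * zth := ⟨_, rfl⟩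
  obtain ⟨K1, hK1⟩ : ∃ K1 : ℝ, K1 = 1 + 32 * Real.exp (C' + 1) + 9 * Real.exp 5 := ⟨_, rfl⟩
  have hK11 : 1 ≤ K1 := by
    rw [hK1]
    have h1 := Real.exp_pos (C' + 1)
    have h2 := Real.exp_pos 5
    linarith
  have he13 : 1 ≤ Real.exp 13 := Real.one_le_exp (by norm_num)
  refine ⟨24 * K1 * Real.exp 13, ?_, fun δ hδ hδ1 => ?_⟩
  · calc (1 : ℝ) ≤ 24 * 1 * 1 := by norm_num
      _ ≤ 24 * K1 * Real.exp 13 := by gcongr
  have hev : ∀ᶠ N : ℕ in atTop, _ := tendsto_log_nat.eventually (ev_sur δ)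
  obtain ⟨M₁, hM₁⟩ := eventually_atTop.1 hev
  refine ⟨max M₁ 3, fun N hN => ?_⟩
  obtain ⟨⟨⟨e1, e2, e3, e4⟩, f1, f2, f3, f4, f5⟩, e5, e6⟩ := hM₁ N ((le_max_left _ _).trans hN)
  have hN3 : 3 ≤ N := (le_max_right _ _).trans hN
  obtain ⟨L, hL⟩ : ∃ L, L = Real.log (N : ℝ) := ⟨_, rfl⟩
  obtain ⟨w, hw⟩ : ∃ w, w = Real.log L := ⟨_, rfl⟩
  obtain ⟨v, hv⟩ : ∃ v, v = Real.log w := ⟨_, rfl⟩
  obtain ⟨q, hq⟩ : ∃ q, q = Real.log v := ⟨_, rfl⟩
  rw [← hL] at e1 e2 e3 e4 f1 f2 f3 f4 f5 e5 e6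
  rw [← hw] at e1 e2 e3 e4 f1 f2 f3 f4 f5 e5
  rw [← hv] at e1 e2 e3 e4 f2 f3 f4 f5
  rw [← hq] at e1 e4
  have hw0 : 0 < w := by linarith
  have hv0 : 0 < v := by linarith
  have hq0 : 0 < q := by linarith
  have hL0 : 0 < L := by
    have : 0 < 2 / δ := by positivity
    linarith
  have hwL : w ≤ L - 1 := by
    rw [hw]
    exact Real.log_le_sub_one_of_pos hL0
  refine ⟨by rw [← hL]; linarith, fun H hH R hR hHR T hT => ?_⟩
  rw [← hL, ← hw, ← hv, ← hq] at hR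
  rw [← hL] at hHR
  rw [← hL, ← hw]
  obtain ⟨Λ, hΛ⟩ : ∃ Λ, Λ = (1 - 1 / 2) * (w * q / v) := ⟨_, rfl⟩
  obtain ⟨u, hu⟩ : ∃ u, u = w / Λ := ⟨_, rfl⟩
  obtain ⟨z, hz⟩ : ∃ z : ℕ, z = ⌊Real.exp Λ⌋₊ := ⟨_, rfl⟩
  obtain ⟨n1, n2, n3, n4, n5, n6, n7, n8, n9⟩ := num_factsC (κ := 1) one_pos le_rfl hv hq
    (by rw [hΛ]) hu e1 e2 (by simpa using e3) (by simpa using e4)
  obtain ⟨s1, s2, s3, s4, s5⟩ := sizes hδ hδ1 hL0 f1 f4 e1 n7 hR hH hHR hT e5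
  refine ⟨s1, s2, ?_⟩
  obtain ⟨y, hy⟩ : ∃ y, y = yM 8 N := ⟨_, rfl⟩
  rw [← hy]
  have hy' : y = ⌊L / (3 * (13 : ℝ))⌋₊ := by
    rw [hy, yM, hL]
    norm_num
  have h2v : 2 * v ≤ w := by nlinarith
  obtain ⟨hy2, hy3, hlogy1, hlogy2⟩ :=
    y_facts (by norm_num) hL0 hw hv (by linarith) (by linarith) h2v hy'
  obtain ⟨hz3, hlogz1, hlogz2⟩ := z_facts (by linarith) hz
  obtain ⟨w', hw'⟩ : ∃ w' : ℕ, w' = ⌊w⌋₊ := ⟨_, rfl⟩
  have hw'1 : (w' : ℝ) ≤ w := by rw [hw']; exact Nat.floor_le hw0.le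
  have hw'2 : w < w' + 1 := by rw [hw']; exact Nat.lt_floor_add_one _
  have hw'3 : w / 2 ≤ w' := by linarith
  have hw'4 : 2 ≤ w' := by
    have h1 : (2 : ℝ) ≤ w' := by linarith
    exact_mod_cast h1
  have hw'0 : (0 : ℝ) < w' := by linarith
  have hw2L : w ^ 2 ≤ L := by
    refine le_trans ?_ e5
    have h1 : 1 ≤ 1 / δ := by
      rw [le_div_iff₀ hδ]
      linarith
    calc w ^ 2 = 1 * w ^ 2 := (one_mul _).symm
      _ ≤ 1 / δ * w ^ 2 := by gcongr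
  have hw'y : w' ≤ y := by
    have h1 : (w' : ℝ) ≤ y := by
      refine hw'1.trans (le_trans ?_ hy2)
      rw [le_div_iff₀ (by norm_num)]
      calc w * (4 * 13) ≤ w * w := by gcongr; linarith
        _ = w ^ 2 := by ring
        _ ≤ L := hw2L
    exact_mod_cast h1
  have hzY : z ≤ y := by
    have hz0 : (0 : ℝ) < z := by
      have : (2 : ℝ) ≤ z := by exact_mod_cast hz3
      linarith
    have hy0 : (0 : ℝ) < y := by
      have : (2 : ℝ) ≤ y := by exact_mod_cast hy3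
      linarith
    have h1 : Real.log z < Real.log y := by linarith
    have h2 : (z : ℝ) < y := (Real.log_lt_log_iff hz0 hy0).1 h1
    exact_mod_cast h2.le
  have hvΛ : v ≤ Λ := by
    refine le_trans ?_ n9
    rw [le_div_iff₀ (by positivity)]
    calc v * (2 * v) ≤ 1024 * v ^ 2 := by nlinarith
      _ ≤ w * 1 := by linarith
      _ ≤ w * q := by gcongr; linarith
  have hwz : w' ≤ z := by
    rw [hw', hz]
    apply Nat.floor_le_floor
    calc w = Real.exp v := by rw [hv, Real.exp_log hw0]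
      _ ≤ Real.exp Λ := Real.exp_le_exp.2 hvΛ
  have hlogN0 : w - v ≤ Real.log ((T + H : ℕ) : ℝ) := by
    have h1 : δ / 2 * L ≤ ((T + H : ℕ) : ℝ) := by
      refine le_trans ?_ s4
      have : 0 ≤ δ * L := by positivity
      linarith
    have h2 := Real.log_le_log (by positivity) h1
    rw [Real.log_mul (by positivity) hL0.ne', ← hw] at h2
    linarith
  have hN0y : (T + H) / y ≤ w' ^ 3 := by
    have h1 : (((T + H) / y : ℕ) : ℝ) ≤ ((T + H : ℕ) : ℝ) / y := Nat.cast_div_le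
    have h2 : ((T + H : ℕ) : ℝ) / y ≤ (w' : ℝ) ^ 3 := by
      calc ((T + H : ℕ) : ℝ) / y ≤ (2 * (L * w ^ 2)) / (L / (4 * 13)) := by gcongr
        _ = 104 * w ^ 2 := by
            field_simp
            norm_num
        _ ≤ (w / 8) * w ^ 2 := by gcongr; linarith
        _ = (w / 2) ^ 3 := by ring
        _ ≤ (w' : ℝ) ^ 3 := by gcongr
    exact_mod_cast h1.trans h2
  have hG := rough_bd (w' := w') (z := z) (y := y) (N := T + H) hC' f1 hv hq hΛ hu hz e1 e2 e3 e4 f2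
    f3 hlogN0 hw'4 hw'y hN0y hlogy2
  rw [← hK1] at hG
  have hlogHT : Real.log ((H * T : ℕ) : ℝ) ≤ 2 * w := by
    rcases Nat.eq_zero_or_pos T with h | h
    · rw [h, mul_zero, Nat.cast_zero, Real.log_zero]
      linarith
    · have h1 : (0 : ℝ) < ((H * T : ℕ) : ℝ) := by
        have : 0 < H * T := Nat.mul_pos hH h
        exact_mod_cast this
      have h2 : ((H * T : ℕ) : ℝ) ≤ L * w ^ 4 := by
        push_cast
        calc (H : ℝ) * T ≤ w ^ 2 * (L * w ^ 2) := by gcongr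
          _ = L * w ^ 4 := by ring
      have h3 := Real.log_le_log h1 h2
      rw [Real.log_mul hL0.ne' (by positivity), Real.log_pow, ← hw, ← hv] at h3
      push_cast at h3
      have h4 : 4 * v ≤ w := by nlinarith
      rw [Nat.cast_mul]
      linarith
  obtain ⟨c, hc1, hc2⟩ := surv_comb (H := H) (T := T) (w' := w') (z := z) (y := y) hH hw'4 hzY hy3
    hlogHT
  refine ⟨c, hc1, hc2.trans ?_⟩
  have hP := prod_mid_le (w' := w') (z := z) (v := v) (Λ := Λ) hw'4 hwz (by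
    rw [hv]
    exact Real.log_le_log hw'0 hw'1) (by linarith) hlogz2
  have hP0 : 0 ≤ ∏ l ∈ (pr z).filter (fun l => w' < l), (1 - (1 : ℝ) / l) :=
    Finset.prod_nonneg fun l hl => (one_sub_pos (mem_filter.1 hl).1).le
  have hE1 : Real.exp (2 * (2 * w) / w') ≤ Real.exp 8 := by
    apply Real.exp_le_exp.2
    rw [div_le_iff₀ hw'0]
    linarith
  exact last_bd (by linarith) (Nat.cast_nonneg H) hw0 hv0 hq0 hL0 n9 hR hδ.le s3 hG hE1
    (Real.exp_pos _).le hP0 hP rfl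

end

end Pool.Agent.DLG
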