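import Mathlib
import Pool.Agent.DLG.Lin
import Pool.Agent.DLG.SurvS
import Pool.Agent.DLG.Box
import Pool.Agent.FXC.EXC

set_option autoImplicit false

/-!
All the numbers `h + k m`, `0 < |h| ≤ H`, `1 ≤ k ≤ T`, are composite (range `H log x ≤ R`).
-/

namespace Pool.Agent.DLG

open Finset Filter BlockSieve Pool.Agent.Lib_helper9.LG Pool.Agent.UNI

noncomputable section

/-- Distinct primitive pairs. -/
lemma prim_inj {h h' : ℤ} {k k' : ℕ} (hk : 1 ≤ k) (h1 : IsCoprime h (k : ℤ))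
    (h2 : IsCoprime h' (k' : ℤ)) (he : h * k' = h' * k) : h = h' ∧ k = k' := by
  have a1 : (k : ℤ) ∣ k' := by
    have : (k : ℤ) ∣ h * k' := by
      rw [he]
      exact Dvd.intro_left _ rfl
    exact h1.symm.dvd_of_dvd_mul_left this
  have a2 : (k' : ℤ) ∣ k := by
    have : (k' : ℤ) ∣ h' * k := by
      rw [← he]
      exact Dvd.intro_left _ rfl
    exact h2.symm.dvd_of_dvd_mul_left this
  have a3 : k = k' := Nat.dvd_antisymm (Int.natCast_dvd_natCast.1 a1) (Int.natCast_dvd_natCast.1 a2)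
  subst a3
  exact ⟨mul_right_cancel₀ (by omega) he, rfl⟩

/-- The numbers are composite. -/
lemma sim_sites {z H T m : ℕ} {X : ℝ} {c : ℕ → ℕ} (hexp : Real.exp (Real.sqrt (Real.log X)) ≤ X / 2)
    (hzX : (z : ℝ) ≤ X / 2) (hHX : (H : ℝ) ≤ X / 2) (hXm : X < m)
    (hc : ∀ l ∈ pr z, (l : ℤ) ∣ 1 + (c l : ℤ) * (m : ℤ))
    (hx : ∀ h : ℤ, ∀ k : ℕ, h ≠ 0 → |h| ≤ H → 1 ≤ k → k ≤ T → IsCoprime h (k : ℤ) →
      (∀ l ∈ pr z, ¬ (l : ℤ) ∣ (k : ℤ) - h * (c l : ℤ)) →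
      ∃ l ∈ PL 1 X, (l : ℤ) ∣ h + (k : ℤ) * (m : ℤ))
    (h : ℤ) (k : ℕ) (h0 : h ≠ 0) (hh : |h| ≤ H) (hk1 : 1 ≤ k) (hkT : k ≤ T) (q : ℕ)
    (hq : q.Prime) : (q : ℤ) ≠ h + k * (m : ℤ) := by
  intro hqa
  have hqX : X / 2 < q := by
    have h2 : (m : ℤ) - H ≤ q := by
      have h4 : (m : ℤ) ≤ k * (m : ℤ) := by
        have h5 : m ≤ k * m := Nat.le_mul_of_pos_left m hk1
        exact_mod_cast h5
      rw [abs_le] at hh
      rw [hqa]
      omega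
    have h3 : (m : ℝ) - H ≤ q := by exact_mod_cast h2
    linarith
  have hdiv : ∀ l : ℕ, l.Prime → (l : ℝ) ≤ X / 2 → (l : ℤ) ∣ h + k * (m : ℤ) → False := by
    intro l hl hlX hld
    rw [← hqa, Int.natCast_dvd_natCast] at hld
    have h1 := (Nat.prime_dvd_prime_iff_eq hl hq).1 hld
    rw [h1] at hlX
    linarith
  by_cases hcop : IsCoprime h (k : ℤ)
  · by_cases hsv : ∀ l ∈ pr z, ¬ (l : ℤ) ∣ (k : ℤ) - h * (c l : ℤ)
    · obtain ⟨l, hl, hld⟩ := hx h k h0 hh hk1 hkT hcop hsv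
      obtain ⟨p1, p2, p3, p4⟩ := mem_PLe hl
      exact hdiv l p1 (p4.trans hexp) hld
    · push Not at hsv
      obtain ⟨l, hl, hld⟩ := hsv
      have hlz : (l : ℝ) ≤ z := by exact_mod_cast (mem_pr.1 hl).2
      refine hdiv l (mem_pr.1 hl).1 (hlz.trans hzX) ?_
      have h2 : h + k * (m : ℤ) =
          h * (1 + (c l : ℤ) * (m : ℤ)) + ((k : ℤ) - h * (c l : ℤ)) * (m : ℤ) := by ring
      rw [h2]
      exact dvd_add (Dvd.dvd.mul_left (hc l hl) _) (Dvd.dvd.mul_right hld _)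
  · rw [Int.isCoprime_iff_gcd_eq_one] at hcop
    obtain ⟨l, hl, hld⟩ := Nat.exists_prime_and_dvd hcop
    have h3 : (l : ℤ) ∣ h := (Int.natCast_dvd_natCast.2 hld).trans (Int.gcd_dvd_left _ _)
    have h4 : (l : ℤ) ∣ k := (Int.natCast_dvd_natCast.2 hld).trans (Int.gcd_dvd_right _ _)
    have h5 : l ≤ H := by
      have h6 := Nat.le_of_dvd (Int.natAbs_pos.2 h0) (Int.natCast_dvd.1 h3)
      rw [Int.abs_eq_natAbs] at hh
      have h7 : h.natAbs ≤ H := by exact_mod_cast hh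
      exact h6.trans h7
    have h6 : (l : ℝ) ≤ H := by exact_mod_cast h5
    exact hdiv l hl (h6.trans hHX) (dvd_add h3 (Dvd.dvd.mul_right h4 _))

/-- `m` is prime to all small numbers. -/
lemma sim_coprime {z H m : ℕ} {c : ℕ → ℕ} (hHz : H ≤ z)
    (hc : ∀ l ∈ pr z, (l : ℤ) ∣ 1 + (c l : ℤ) * (m : ℤ)) (h : ℤ) (h0 : h ≠ 0) (hh : |h| ≤ H) :
    IsCoprime h (m : ℤ) := by
  rw [Int.isCoprime_iff_gcd_eq_one]
  by_contra hcon
  obtain ⟨l, hl, hld⟩ := Nat.exists_prime_and_dvd hcon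
  have h3 : (l : ℤ) ∣ h := (Int.natCast_dvd_natCast.2 hld).trans (Int.gcd_dvd_left _ _)
  have h4 : (l : ℤ) ∣ m := (Int.natCast_dvd_natCast.2 hld).trans (Int.gcd_dvd_right _ _)
  have h5 : l ≤ z := by
    have h6 := Nat.le_of_dvd (Int.natAbs_pos.2 h0) (Int.natCast_dvd.1 h3)
    rw [Int.abs_eq_natAbs] at hh
    have h7 : h.natAbs ≤ H := by exact_mod_cast hh
    omega
  have h6 := hc l (mem_pr.2 ⟨hl, h5⟩)
  have h7 : (l : ℤ) ∣ 1 := (Int.dvd_add_left (Dvd.dvd.mul_left h4 _)).1 h6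
  have h8 : l ∣ 1 := by exact_mod_cast h7
  exact hl.one_lt.ne' (Nat.dvd_one.1 h8)

lemma ev_sim (X₀ : ℝ) : ∀ᶠ n : ℕ in atTop, 64 ≤ n ∧ 4 * X₀ ≤ (n : ℝ) ∧
    16 * Real.log (n : ℝ) ≤ n ∧ 60 * Real.log (Real.log (n : ℝ)) ^ 2 ≤ Real.log n ∧
    32 * Real.log (Real.log (n : ℝ)) ^ 4 ≤ Real.log n := by
  have h2 : Tendsto (fun n : ℕ => Real.log (n : ℝ)) atTop atTop :=
    Real.tendsto_log_atTop.comp tendsto_natCast_atTop_atTop
  have h1 : Tendsto (fun n : ℕ => (n : ℝ)) atTop atTop := tendsto_natCast_atTop_atTop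
  have h3 := h1.eventually (ev_real 16 1)
  filter_upwards [eventually_ge_atTop 64, h1.eventually_ge_atTop (4 * X₀),
    h3, h2.eventually (ev_real 60 2), h2.eventually (ev_real 32 4)] with n e1 e2 e3 e4 e5
  exact ⟨e1, e2, by simpa using e3, e4, e5⟩

/-- **Small `H`.** -/
theorem simS : ∃ c₀ : ℝ, 0 < c₀ ∧ c₀ ≤ 1 ∧ ∃ x₀ : ℕ, ∀ n : ℕ, x₀ ≤ n → ∀ H : ℕ, 1 ≤ H →
    ∀ R : ℝ, R = Real.log n * Real.log (Real.log n) ^ 2 *
      Real.log (Real.log (Real.log (Real.log n))) / (Real.log (Real.log (Real.log n))) ^ 2 →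
    (H : ℝ) * Real.log n ≤ R → ∀ y : ℕ, ∃ m : ℕ, y ≤ m ∧ m ≤ y + n ∧ 2 * H < m ∧
    ∀ h : ℤ, h ≠ 0 → |h| ≤ H → IsCoprime h (m : ℤ) ∧
      ∀ k : ℕ, 1 ≤ k → (k : ℝ) ≤ c₀ * R / H → ∀ q : ℕ, q.Prime → (q : ℤ) ≠ h + k * (m : ℤ) := by
  classical
  obtain ⟨c₁, hc₁, hE⟩ := engL
  obtain ⟨c₂, hc₂⟩ : ∃ c₂, c₂ = min c₁ 1 := ⟨_, rfl⟩
  have hc2pos : 0 < c₂ := by rw [hc₂]; exact lt_min hc₁ one_pos
  have hc21 : c₂ ≤ 1 := by rw [hc₂]; exact min_le_right _ _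
  have hc2c1 : c₂ ≤ c₁ := by rw [hc₂]; exact min_le_left _ _
  obtain ⟨K, hK1, hsurv⟩ := survS
  have hK0 : 0 < K := by linarith
  obtain ⟨δ, hδ⟩ : ∃ δ, δ = c₂ / (2 * K) := ⟨_, rfl⟩
  have hδ0 : 0 < δ := by rw [hδ]; positivity
  have hKδ : K * δ = c₂ / 2 := by
    rw [hδ]
    field_simp
  have hδ1 : δ ≤ 1 := by
    rw [hδ, div_le_one (by positivity)]
    linarith
  obtain ⟨X₀, hX₀⟩ := hE 1
  obtain ⟨N₀, hN₀⟩ := hsurv δ hδ0 hδ1
  obtain ⟨N₁, hN₁⟩ := eventually_atTop.1 (ev_sim X₀)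
  refine ⟨δ, hδ0, hδ1, max N₀ N₁, fun n hn H hH R hR hHR y => ?_⟩
  obtain ⟨g3, hs⟩ := hN₀ n ((le_max_left _ _).trans hn)
  obtain ⟨T, hT⟩ : ∃ T : ℕ, T = ⌊δ * R / H⌋₊ := ⟨_, rfl⟩
  obtain ⟨s1, s2, c, s3, s4⟩ := hs H hH R hR hHR T hT
  obtain ⟨g1, g2, g4, g5, g6⟩ := hN₁ n ((le_max_right _ _).trans hn)
  obtain ⟨L, hL⟩ : ∃ L, L = Real.log (n : ℝ) := ⟨_, rfl⟩
  obtain ⟨w, hw⟩ : ∃ w, w = Real.log L := ⟨_, rfl⟩
  rw [← hL] at g3 g4 g5 g6 s1 s2 s4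
  rw [← hw] at g5 g6 s1 s2
  have hn4 : (64 : ℝ) ≤ n := by exact_mod_cast g1
  have hn0 : (0 : ℝ) < n := by linarith
  have hL0 : 0 < L := by linarith
  obtain ⟨X, hX⟩ : ∃ X : ℝ, X = (n : ℝ) / 4 := ⟨_, rfl⟩
  have hX0 : 0 < X := by rw [hX]; positivity
  have hX16 : 16 ≤ X := by rw [hX]; linarith
  have hlogX : Real.log X = L - Real.log 4 := by
    rw [hX, Real.log_div hn0.ne' (by norm_num), ← hL]
  have hlog2 : 0 < Real.log 4 := Real.log_pos (by norm_num)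
  have hlog2' : Real.log 4 < 2 := by
    have := log_four_le
    linarith
  have hlX1 : L / 2 ≤ Real.log X := by
    rw [hlogX]
    linarith
  have hlX2 : 16 ≤ Real.log X := by linarith
  have hXE : X₀ ≤ X := by
    rw [hX]
    linarith
  -- the modulus
  obtain ⟨z, hz⟩ : ∃ z : ℕ, z = yM 8 n := ⟨_, rfl⟩
  rw [← hz] at s3 s4
  have hz' : z = ⌊L / 39⌋₊ := by
    rw [hz, yM, hL]
    norm_num
  have hzL : (z : ℝ) ≤ L / 39 := by
    rw [hz']
    exact Nat.floor_le (by positivity)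
  have hzL2 : L / 39 < z + 1 := by
    rw [hz']
    exact Nat.lt_floor_add_one _
  have hHz : H ≤ z := by
    have h1 : (H : ℝ) ≤ z := by linarith
    exact_mod_cast h1
  obtain ⟨W, hW⟩ : ∃ W : ℕ, W = ∏ l ∈ pr z, l := ⟨_, rfl⟩
  have hQp : ∀ l ∈ pr z, l.Prime := fun l hl => (mem_pr.1 hl).1
  have hWpos : 1 ≤ W := by rw [hW]; exact Finset.prod_pos fun l hl => (hQp l hl).pos
  have hWr : (0 : ℝ) < W := by exact_mod_cast hWpos
  have hlogW : Real.log W ≤ Real.log 4 * z := by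
    rw [hW]
    exact prod_pr_log_le z
  have hW8 : 8 * Real.log W ≤ L / 2 := by
    have h1 := log_four_le
    calc 8 * Real.log W ≤ 8 * (Real.log 4 * z) := by gcongr
      _ ≤ 8 * ((1387 / 1000) * (L / 39)) := by
          have h5 : (0 : ℝ) ≤ z := Nat.cast_nonneg _
          gcongr
      _ ≤ L / 2 := by linarith
  have hWX : (W : ℝ) ^ 8 ≤ X := by
    rw [← Real.log_le_log_iff (by positivity) hX0, Real.log_pow]
    push_cast
    linarith
  have hWX1 : (W : ℝ) ≤ X := by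
    refine le_trans ?_ hWX
    have h1 : (1 : ℝ) ≤ W := by exact_mod_cast hWpos
    exact le_self_pow₀ h1 (by norm_num)
  have hw4 : 0 ≤ w ^ 4 := by positivity
  have hw2 : 0 ≤ w ^ 2 := by positivity
  have hL4 : L * L ≤ (Real.log X) ^ 4 := by
    have h2 : (L / 2) ^ 4 ≤ (Real.log X) ^ 4 := by gcongr
    refine le_trans ?_ h2
    have h3 : (4 : ℝ) ^ 2 ≤ L ^ 2 := by gcongr; linarith
    calc L * L = (4 : ℝ) ^ 2 * (L * L) / 16 := by ring
      _ ≤ L ^ 2 * (L * L) / 16 := by gcongr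
      _ = (L / 2) ^ 4 := by ring
  have hLL : L ≤ L * L := by
    calc L = L * 1 := (mul_one L).symm
      _ ≤ L * L := by gcongr; linarith
  have hHT : 2 * (H : ℝ) * T ≤ (Real.log X) ^ 4 := by
    refine le_trans ?_ hL4
    calc 2 * (H : ℝ) * T ≤ 2 * w ^ 2 * (L * w ^ 2) := by gcongr
      _ = L * (2 * w ^ 4) := by ring
      _ ≤ L * L := by gcongr; linarith
  have hTX : (T : ℝ) ≤ (Real.log X) ^ 4 := by
    refine le_trans ?_ hHT
    have h1 : (1 : ℝ) ≤ H := by exact_mod_cast hH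
    calc (T : ℝ) = 1 * T := (one_mul _).symm
      _ ≤ 2 * (H : ℝ) * T := by gcongr; linarith
  have hWp : ∀ p : ℕ, p.Prime → p ∣ W → (p : ℝ) ≤ (Real.log X) ^ 4 := by
    intro p hp hpW
    rw [hW] at hpW
    obtain ⟨l, hl, hpl⟩ := (hp.prime.dvd_finsetProd_iff _).1 hpW
    rw [(Nat.prime_dvd_prime_iff_eq hp (hQp l hl)).1 hpl]
    have h1 : (l : ℝ) ≤ z := by exact_mod_cast (mem_pr.1 hl).2
    linarith
  -- the start
  obtain ⟨y', hy'⟩ : ∃ y' : ℕ, y' = max y (n / 4 + 1) := ⟨_, rfl⟩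
  have hyy' : y ≤ y' := by rw [hy']; exact le_max_left _ _
  have hXy' : X < y' := by
    have h1 : n < 4 * y' := by
      have : n / 4 + 1 ≤ y' := by rw [hy']; exact le_max_right _ _
      omega
    have h2 : (n : ℝ) < 4 * y' := by exact_mod_cast h1
    rw [hX]
    linarith
  have hy'n : 2 * y' + n ≤ 2 * y + 2 * n := by
    rcases le_total y (n / 4 + 1) with h | h
    · rw [hy', max_eq_right h]
      omega
    · rw [hy', max_eq_left h]
      omega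
  obtain ⟨b, hb1, hb2, hb3⟩ := Pool.Agent.FXC.t_EXC 1 y' (pr z) hQp c s3
  rw [← hW] at hb2
  -- the sites
  obtain ⟨S, hS⟩ : ∃ S : Finset (ℤ × ℕ), S = ((Icc (-(H : ℤ)) H) ×ˢ (Icc 1 T)).filter
      (fun s : ℤ × ℕ => (s.1 ≠ 0 ∧ ∀ l ∈ pr z, ¬ ((l : ℤ) ∣ (s.2 : ℤ) - s.1 * (c l : ℤ))) ∧
        IsCoprime s.1 (s.2 : ℤ)) := ⟨_, rfl⟩
  have hScard : (S.card : ℝ) ≤ K * δ * L := by
    refine le_trans ?_ s4
    have h1 : S.card ≤ (((Icc (-(H : ℤ)) H) ×ˢ (Icc 1 T)).filter (fun s : ℤ × ℕ => s.1 ≠ 0 ∧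
        ∀ l ∈ pr z, ¬ ((l : ℤ) ∣ (s.2 : ℤ) - s.1 * (c l : ℤ)))).card := by
      apply Finset.card_le_card
      rw [hS]
      intro s hs
      rw [mem_filter] at hs ⊢
      exact ⟨hs.1, hs.2.1⟩
    exact_mod_cast h1
  have hSm : ∀ s ∈ S, (-(H : ℤ) ≤ s.1 ∧ s.1 ≤ H) ∧ (1 ≤ s.2 ∧ s.2 ≤ T) ∧
      IsCoprime s.1 (s.2 : ℤ) := by
    intro s hs
    rw [hS, mem_filter, mem_product, mem_Icc, mem_Icc] at hs
    exact ⟨hs.1.1, hs.1.2, hs.2.2⟩
  have hlw : ∀ l ∈ PL 1 X, T < l ∧ 2 * (H * T) < l := by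
    intro l hl
    have h1 := (mem_PLe hl).2.1
    constructor
    · have h2 : (T : ℝ) < l := lt_of_le_of_lt hTX h1
      exact_mod_cast h2
    · have h2 : 2 * (H : ℝ) * T < l := lt_of_le_of_lt hHT h1
      have h3 : ((2 * (H * T) : ℕ) : ℝ) < l := by
        push_cast
        linarith
      exact_mod_cast h3
  obtain ⟨x, hx1, -, hx3⟩ := hX₀ X hXE 1 W b le_rfl (by simpa using by linarith) hWpos hWX
    (Nat.coprime_one_right W) hWp S (fun s => s.1.1) (fun s => (s.1.2 : ℤ))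
    (by
      intro l hl s
      obtain ⟨h1, -⟩ := hlw l hl
      obtain ⟨-, h3, -⟩ := hSm s.1 s.2
      refine not_dvd_of_lt (by omega) ?_
      rw [abs_of_nonneg (by omega)]
      omega)
    (by
      rintro l hl s t hst
      obtain ⟨-, h1⟩ := hlw l hl
      obtain ⟨⟨a1, a2⟩, a3, a4⟩ := hSm s.1 s.2
      obtain ⟨⟨b1, b2⟩, b3, b4⟩ := hSm t.1 t.2
      refine not_dvd_of_lt ?_ ?_
      · intro h0
        apply hst
        obtain ⟨h5, h6⟩ := prim_inj a3.1 a4 b4 (sub_eq_zero.1 h0)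
        exact Subtype.ext (Prod.ext h5 h6)
      · have h7 : |s.1.1 * (t.1.2 : ℤ)| ≤ H * T := by
          rw [abs_mul]
          have h8 : |s.1.1| ≤ H := abs_le.2 ⟨a1, a2⟩
          have h9 : |((t.1.2 : ℕ) : ℤ)| ≤ T := by
            rw [abs_of_nonneg (Int.natCast_nonneg _)]
            exact_mod_cast b3.2
          exact mul_le_mul h8 h9 (abs_nonneg _) (Int.natCast_nonneg _)
        have h8 : |t.1.1 * (s.1.2 : ℤ)| ≤ H * T := by
          rw [abs_mul]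
          have h8 : |t.1.1| ≤ H := abs_le.2 ⟨b1, b2⟩
          have h9 : |((s.1.2 : ℕ) : ℤ)| ≤ T := by
            rw [abs_of_nonneg (Int.natCast_nonneg _)]
            exact_mod_cast a3.2
          exact mul_le_mul h8 h9 (abs_nonneg _) (Int.natCast_nonneg _)
        have h9 : (2 * (H * T) : ℤ) < l := by exact_mod_cast h1
        have h10 := abs_sub (s.1.1 * (t.1.2 : ℤ)) (t.1.1 * (s.1.2 : ℤ))
        linarith)
    (by
      rw [Fintype.card_coe]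
      refine hScard.trans ?_
      calc K * δ * L = c₂ * (L / 2) := by rw [hKδ]; ring
        _ ≤ c₁ * Real.log X := by gcongr)
  obtain ⟨m, hm⟩ : ∃ m : ℕ, m = b + W * x := ⟨_, rfl⟩
  rw [← hm] at hx3
  have hXm : X < m := by
    have h1 : (y' : ℝ) ≤ m := by
      have : y' ≤ m := by rw [hm]; exact hb1.trans (Nat.le_add_right _ _)
      exact_mod_cast this
    linarith
  have hw2X : 2 * w ^ 2 ≤ X / 2 := by
    rw [hX]
    linarith
  have hclm : ∀ l ∈ pr z, (l : ℤ) ∣ 1 + (c l : ℤ) * (m : ℤ) := by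
    intro l hl
    have h1 := hb3 l hl (c l) (Nat.ModEq.refl _)
    have hlW : l ∣ W := by rw [hW]; exact Finset.dvd_prod_of_mem _ hl
    have h2 : 1 + (c l : ℤ) * (m : ℤ) = (1 + (c l : ℤ) * (b : ℤ)) + (W : ℤ) * ((c l : ℤ) * x) := by
      rw [hm]
      push_cast
      ring
    rw [h2]
    exact dvd_add h1 (Dvd.dvd.mul_right (Int.natCast_dvd_natCast.2 hlW) _)
  have hexp : Real.exp (Real.sqrt (Real.log X)) ≤ X / 2 := by
    have h1 : Real.sqrt (Real.log X) ≤ Real.log X - Real.log 4 := by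
      have h2 : Real.sqrt (Real.log X) ≤ Real.log X / 2 := by
        rw [Real.sqrt_le_left (by linarith)]
        have h3 : Real.log X * 4 ≤ Real.log X * Real.log X :=
          mul_le_mul_of_nonneg_left (by linarith) (by linarith)
        calc Real.log X = Real.log X * 4 / 4 := by ring
          _ ≤ Real.log X * Real.log X / 4 := by linarith
          _ = (Real.log X / 2) ^ 2 := by ring
      linarith
    calc Real.exp (Real.sqrt (Real.log X)) ≤ Real.exp (Real.log X - Real.log 4) :=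
          Real.exp_le_exp.2 h1
      _ = X / 4 := by rw [Real.exp_sub, Real.exp_log hX0, Real.exp_log (by norm_num)]
      _ ≤ X / 2 := by linarith
  refine ⟨m, hyy'.trans (by rw [hm]; exact hb1.trans (Nat.le_add_right _ _)), ?_, ?_,
    fun h h0 hh => ⟨sim_coprime hHz hclm h h0 hh, fun k hk1 hk2 q hq => ?_⟩⟩
  · push_cast at hx1
    have h1 : (b : ℝ) ≤ y' + W := by exact_mod_cast hb2.le
    have h2 : 2 * (X + X) = (n : ℝ) := by rw [hX]; ring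
    have h4 : 2 * (y' : ℝ) + n ≤ 2 * y + 2 * n := by exact_mod_cast hy'n
    have h3 : ((b + W * x : ℕ) : ℝ) ≤ ((y + n : ℕ) : ℝ) := by
      push_cast
      linarith
    rw [hm]
    exact_mod_cast h3
  · have h1 : ((2 * H : ℕ) : ℝ) < m := by
      push_cast
      linarith
    exact_mod_cast h1
  · have hkT : k ≤ T := by
      rw [hT]
      exact Nat.le_floor hk2
    refine sim_sites (z := z) (H := H) (T := T) hexp (by rw [hX]; linarith) (by linarith) hXm hclm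
      ?_ h k h0 hh hk1 hkT q hq
    intro h' k' h0' hh' hk1' hkT' hcop' hsv'
    have hmem : (h', k') ∈ S := by
      rw [hS, mem_filter, mem_product, mem_Icc, mem_Icc]
      exact ⟨⟨abs_le.1 hh', hk1', hkT'⟩, ⟨h0', hsv'⟩, hcop'⟩
    obtain ⟨l, hl, hld⟩ := hx3 ⟨(h', k'), hmem⟩
    exact ⟨l, hl, hld⟩

end

end Pool.Agent.DLG
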