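import Mathlib
import Pool.Agent.DLG.Sim

set_option autoImplicit false

/-!
The least primes in all the classes `h` modulo `m`, `0 < |h| ≤ H`, for one modulus `m`.
-/

namespace Pool.Agent.DLG

open Finset Filter BlockSieve Pool.Agent.UNI

noncomputable section

lemma ev_fin (c : ℝ) (hc : 0 < c) : ∀ᶠ n : ℕ in atTop, 8 ≤ n ∧ 4 ≤ Real.log (n : ℝ) ∧
    8 * Real.log (n : ℝ) ≤ n ∧ 0 ≤ Real.log (Real.log (Real.log (Real.log (n : ℝ)))) := by
  have h2 : Tendsto (fun n : ℕ => Real.log (n : ℝ)) atTop atTop :=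
    Real.tendsto_log_atTop.comp tendsto_natCast_atTop_atTop
  have h1 : Tendsto (fun n : ℕ => (n : ℝ)) atTop atTop := tendsto_natCast_atTop_atTop
  have h4 := h1.eventually (ev_real 8 1)
  have h5 : Tendsto (fun n : ℕ => Real.log (Real.log (Real.log (Real.log (n : ℝ))))) atTop atTop :=
    Real.tendsto_log_atTop.comp (Real.tendsto_log_atTop.comp (Real.tendsto_log_atTop.comp h2))
  filter_upwards [eventually_ge_atTop 8, h2.eventually_ge_atTop 4, h4, h5.eventually_ge_atTop 0]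
    with n e1 e2 e3 e4
  exact ⟨e1, e2, by simpa using e3, e4⟩

/-- A prime in the class `h` modulo `m`. -/
lemma class_prime {m q H : ℕ} {h : ℤ} (hH : 2 * H < m) (hh : |h| ≤ H)
    (hq : (q : ℤ) ≡ h [ZMOD m]) (hne : (q : ℤ) ≠ h) :
    ∃ k : ℕ, 1 ≤ k ∧ (q : ℤ) = h + k * (m : ℤ) ∧ (k : ℝ) / 2 * m ≤ q := by
  obtain ⟨k, hk⟩ := hq.symm.dvd
  have hk' : (q : ℤ) = h + m * k := by linarith
  rw [abs_le] at hh
  have hk1 : 1 ≤ k := by
    by_contra hcon
    push Not at hcon
    rcases (by omega : k = 0 ∨ k ≤ -1) with h0 | h0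
    · apply hne
      rw [hk', h0]
      ring
    · have h1 : (m : ℤ) * k ≤ m * (-1) := mul_le_mul_of_nonneg_left h0 (Int.natCast_nonneg _)
      have h2 : (0 : ℤ) ≤ q := Int.natCast_nonneg _
      omega
  obtain ⟨j, hj⟩ : ∃ j : ℕ, (j : ℤ) = k := ⟨k.toNat, Int.toNat_of_nonneg (by omega)⟩
  refine ⟨j, by omega, by rw [hj, hk']; ring, ?_⟩
  have h1 : (j : ℤ) * m ≤ 2 * q := by
    have h3 : (m : ℤ) ≤ m * k := le_mul_of_one_le_right (Int.natCast_nonneg _) hk1
    have h4 : (j : ℤ) * m = m * k := by rw [hj]; ring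
    rw [h4]
    omega
  have h2 : ((j : ℝ)) * m ≤ 2 * q := by exact_mod_cast h1
  linarith

/-- **The simultaneous theorem.** -/
theorem sim : ∃ c₀ : ℝ, 0 < c₀ ∧ ∃ x₀ : ℕ, ∀ x : ℕ, x₀ ≤ x →
    ∀ H : ℕ, 1 ≤ H → (H : ℝ) ≤ c₀ * Real.log x → ∀ y : ℕ, ∃ m : ℕ, y ≤ m ∧ m ≤ y + x ∧
    2 * H < m ∧ ∀ h : ℤ, h ≠ 0 → |h| ≤ H → IsCoprime h (m : ℤ) ∧
      ∀ q : ℕ, q.Prime → (q : ℤ) ≡ h [ZMOD m] → (q : ℤ) ≠ h →
        c₀ * (m * (Real.log x + Real.log x * Real.log (Real.log x) ^ 2 *
          Real.log (Real.log (Real.log (Real.log x))) /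
            (Real.log (Real.log (Real.log x))) ^ 2 / H)) < q := by
  obtain ⟨c₁, h1, h1', x₁, hS⟩ := simS
  obtain ⟨c₂, h2, x₂, hB⟩ := box
  obtain ⟨c, hc⟩ : ∃ c, c = min c₁ c₂ / 8 := ⟨_, rfl⟩
  have hmin : 0 < min c₁ c₂ := lt_min h1 h2
  have hc0 : 0 < c := by rw [hc]; positivity
  have hcc1 : 8 * c ≤ c₁ := by
    have := min_le_left c₁ c₂
    rw [hc]
    linarith
  have hcc2 : 8 * c ≤ c₂ := by
    have := min_le_right c₁ c₂
    rw [hc]
    linarith
  obtain ⟨N₁, hN₁⟩ := eventually_atTop.1 (ev_fin c hc0)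
  refine ⟨c, hc0, max (max x₁ (2 * x₂ + 2)) N₁, fun x hx H hH hHL y => ?_⟩
  obtain ⟨e1, e2, e3, e4⟩ := hN₁ x ((le_max_right _ _).trans hx)
  have hx1 : x₁ ≤ x := (le_max_left _ _).trans ((le_max_left _ _).trans hx)
  have hx2 : 2 * x₂ + 2 ≤ x := (le_max_right _ _).trans ((le_max_left _ _).trans hx)
  obtain ⟨L, hL⟩ : ∃ L, L = Real.log (x : ℝ) := ⟨_, rfl⟩
  obtain ⟨R, hR⟩ : ∃ R, R = Real.log (x : ℝ) * Real.log (Real.log x) ^ 2 *
      Real.log (Real.log (Real.log (Real.log x))) / (Real.log (Real.log (Real.log x))) ^ 2 :=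
    ⟨_, rfl⟩
  rw [← hR]
  have hR0 : 0 ≤ R := by
    rw [hR]
    have : 0 ≤ Real.log (x : ℝ) := by linarith
    positivity
  rw [← hL] at hHL e2 e3 ⊢
  have hL0 : 0 < L := by linarith
  have hH1 : (1 : ℝ) ≤ H := by exact_mod_cast hH
  have hH0 : (0 : ℝ) < H := by linarith
  rcases le_total ((H : ℝ) * L) R with hHR | hHR
  · rw [hL] at hHR
    obtain ⟨m, m1, m2, m3, m4⟩ := hS x hx1 H hH R hR hHR y
    rw [← hL] at hHR
    refine ⟨m, m1, m2, m3, fun h h0 hh => ⟨(m4 h h0 hh).1, fun q hq hqm hqh => ?_⟩⟩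
    obtain ⟨k, k1, k2, k3⟩ := class_prime m3 hh hqm hqh
    have hm0 : (0 : ℝ) < m := by
      have : 0 < m := by omega
      exact_mod_cast this
    have h3 : c₁ * R / H < k := by
      by_contra hcon
      push Not at hcon
      exact (m4 h h0 hh).2 k k1 hcon q hq k2
    have h4 : L ≤ R / H := by
      rw [le_div_iff₀ hH0]
      linarith
    have h5 : c * (L + R / H) ≤ (c₁ * R / H) / 2 := by
      have h6 : 0 ≤ R / H := by positivity
      calc c * (L + R / H) ≤ c * (R / H + R / H) := by gcongr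
        _ = (2 * c) * (R / H) := by ring
        _ ≤ (c₁ / 2) * (R / H) := by
            gcongr
            linarith
        _ = _ := by ring
    calc c * (m * (L + R / H)) = (c * (L + R / H)) * m := by ring
      _ ≤ ((c₁ * R / H) / 2) * m := by gcongr
      _ < (k / 2) * m := by gcongr
      _ ≤ q := k3
  · obtain ⟨n, hn⟩ : ∃ n : ℕ, n = x / 2 := ⟨_, rfl⟩
    have hn2 : x₂ ≤ n := by omega
    have hlogn : L / 2 ≤ Real.log (n : ℝ) := by
      have h3 : (x : ℝ) / 4 ≤ n := by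
        have h5 : x ≤ 4 * n := by omega
        have h6 : (x : ℝ) ≤ 4 * n := by exact_mod_cast h5
        linarith
      have hx0 : (0 : ℝ) < x := by
        have : 0 < x := by omega
        exact_mod_cast this
      have h4 := Real.log_le_log (by positivity) h3
      rw [Real.log_div hx0.ne' (by norm_num), ← hL] at h4
      have h5 := log_four_le
      linarith
    obtain ⟨m, m1, m2, m3, m4⟩ := hB n hn2 (max y (x / 4 + 1))
    have hHb : (H : ℝ) ≤ c₂ * Real.log n := by
      refine hHL.trans ?_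
      calc c * L ≤ (c₂ / 8) * L := by
            gcongr
            linarith
        _ ≤ c₂ * (L / 2) := by
            have : 0 ≤ c₂ * L := by positivity
            linarith
        _ ≤ c₂ * Real.log n := by gcongr
    have hc18 : 8 * c ≤ 1 := hcc1.trans h1'
    have h2H : 2 * H < m := by
      have h3 : x / 4 + 1 ≤ m := (le_max_right _ _).trans m1
      have h4 : 8 * H ≤ x := by
        have h5 : (8 : ℝ) * H ≤ x := by
          calc (8 : ℝ) * H ≤ 8 * (c * L) := by gcongr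
            _ = (8 * c) * L := by ring
            _ ≤ 1 * L := by gcongr
            _ ≤ 8 * L := by linarith
            _ ≤ x := e3
        exact_mod_cast h5
      omega
    refine ⟨m, (le_max_left _ _).trans m1, ?_, h2H, fun h h0 hh => ?_⟩
    · rcases le_total y (x / 4 + 1) with hy | hy
      · rw [max_eq_right hy] at m2
        omega
      · rw [max_eq_left hy] at m2
        omega
    have hhR : |(h : ℝ)| ≤ c₂ * Real.log n := by
      refine le_trans ?_ hHb
      exact_mod_cast hh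
    refine ⟨m3 h h0 hhR, fun q hq hqm hqh => ?_⟩
    obtain ⟨k, k1, k2, k3⟩ := class_prime h2H hh hqm hqh
    have hm0 : (0 : ℝ) < m := by
      have : 0 < m := by omega
      exact_mod_cast this
    have h3 : c₂ * Real.log n < k := by
      by_contra hcon
      push Not at hcon
      refine m4 k h (by exact_mod_cast k1) (by exact_mod_cast hcon) hhR ?_
      have h5 : (k : ℤ) * m + h = (q : ℤ) := by rw [k2]; ring
      rw [h5]
      exact Nat.prime_iff_prime_int.1 hq
    have h4 : R / H ≤ L := by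
      rw [div_le_iff₀ hH0]
      linarith
    have h5 : c * (L + R / H) ≤ (c₂ * Real.log n) / 2 := by
      calc c * (L + R / H) ≤ c * (L + L) := by gcongr
        _ = (8 * c) * (L / 4) := by ring
        _ ≤ c₂ * (L / 4) := by gcongr
        _ = c₂ * (L / 2) / 2 := by ring
        _ ≤ (c₂ * Real.log n) / 2 := by gcongr
    calc c * (m * (L + R / H)) = (c * (L + R / H)) * m := by ring
      _ ≤ ((c₂ * Real.log n) / 2) * m := by gcongr
      _ < (k / 2) * m := by gcongr
      _ ≤ q := k3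

end

end Pool.Agent.DLG
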